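import Pool.Agent.TH90.Kim.Main4

/-!
# Realisations, in the form used in the statements
-/

open CategoryTheory MonoidalCategory Limits BraidedCategory

universe u v w

namespace Pool.Agent.TH90.Kim

set_option linter.unusedSectionVars false

noncomputable section

/-- The realisation as a structure of linear maps. -/
def SuperRealisation.toReal {𝒜 : Type u} [Category.{v} 𝒜] [MonoidalCategory 𝒜]
    [SymmetricCategory 𝒜] [Preadditive 𝒜] [Linear ℚ 𝒜] {K : Type w} [Field K] [CharZero K]
    (F : SuperRealisation 𝒜 K) : Realisation 𝒜 K where
  V := F.V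
  map f :=
    { toFun := F.map f
      map_add' := F.functorial.add _ _ f
      map_smul' := F.functorial.smul _ _ f }
  map_id := F.functorial.map_id
  map_comp f g x := F.functorial.map_comp _ _ _ f g x
  map_add f g x := F.ratLinear.map_add _ _ f g x
  map_smul q f x := F.ratLinear.map_smul _ _ q f x
  par X :=
    { toFun := F.par
      map_add' := F.super.add X
      map_smul' := F.super.smul X }
  par_par := F.super.par_par
  par_map f x := F.super.par_map _ _ f x
  ext {X Y} := LinearMap.mk₂ K F.ext (F.tensor.add.left X Y) (F.tensor.smul_left X Y)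
    (F.tensor.add.right X Y) (F.tensor.smul_right X Y)
  exists_sum z := F.kunneth.sum _ _ z
  ext_ne_zero hx hy := F.kunneth.ne _ _ _ _ hx hy
  ext_map f g x y := F.tensor.natural _ _ _ _ f g x y
  par_ext x y := F.super.par_ext _ _ x y
  one := F.one
  one_ne := F.kunneth.one_ne
  span_one := F.kunneth.span_one
  par_one := F.super.par_one
  assoc x y z := F.assoc.assoc _ _ _ x y z
  left_unit x := F.assoc.left_unit _ x
  right_unit x := F.assoc.right_unit _ x
  koszul_even x y h := F.koszul.even _ _ x y h
  koszul_odd x y h h' := F.koszul.odd _ _ x y h h'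

end

end Pool.Agent.TH90.Kim
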