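import Mathlib

/-!
# Recursion for (anti)symmetrisers
-/

set_option autoImplicit false

namespace Pool.Agent.TH90.Kim

variable {R : Type*} [Ring R] [Algebra ℚ R] {a e s t : R} {ε m : ℚ}

/-- The data for the recursion step. -/
structure Step (a e s t : R) (ε m : ℚ) : Prop where
  hε : ε * ε = 1
  tt : t * t = 1
  ta : t * a = a * t
  sts : s * t * s = t * s * t
  ae : a * e = e
  ea : e * a = e
  se : s * e = ε • e
  es : e * s = ε • e
  ee : e * e = e
  me : m • e = a + (ε * (m - 1)) • (a * s * a)

namespace Step

variable (h : Step a e s t ε m)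
include h

theorem h1 : m • (e * t * e) = t * e + (ε * (m - 1)) • (a * s * t * e) := by
  have e1 : a * t * e = t * e := by rw [← h.ta, mul_assoc, h.ae]
  have e2 : a * s * a * t * e = a * s * t * e := by
    rw [mul_assoc (a * s) a t, ← h.ta, ← mul_assoc, mul_assoc _ a e, h.ae]
  calc m • (e * t * e) = (m • e) * t * e := by rw [smul_mul_assoc, smul_mul_assoc]
    _ = a * t * e + (ε * (m - 1)) • (a * s * a * t * e) := by
        rw [h.me, add_mul, add_mul, smul_mul_assoc, smul_mul_assoc]
    _ = _ := by rw [e1, e2]

theorem h1' : m • (e * t * e) = e * t + (ε * (m - 1)) • (e * t * s * a) := by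
  have e1 : e * t * a = e * t := by rw [mul_assoc, h.ta, ← mul_assoc, h.ea]
  have e2 : e * t * (a * s * a) = e * t * s * a := by
    rw [← mul_assoc, ← mul_assoc, e1]
  calc m • (e * t * e) = e * t * (m • e) := by rw [mul_smul_comm]
    _ = e * t * a + (ε * (m - 1)) • (e * t * (a * s * a)) := by
        rw [h.me, mul_add, mul_smul_comm]
    _ = _ := by rw [e1, e2]

theorem h2 : m • (t * e * t * e) = e + (m - 1) • (a * s * t * e) := by
  have e1 : t * (t * e) = e := by rw [← mul_assoc, h.tt, one_mul]
  have e2 : t * (a * s * t * e) = ε • (a * s * t * e) := by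
    calc t * (a * s * t * e) = (t * a) * s * t * e := by simp only [mul_assoc]
      _ = a * (t * s * t) * e := by rw [h.ta]; simp only [mul_assoc]
      _ = a * s * t * (s * e) := by rw [← h.sts]; simp only [mul_assoc]
      _ = _ := by rw [h.se, mul_smul_comm]
  calc m • (t * e * t * e) = t * (m • (e * t * e)) := by
        rw [mul_smul_comm]; simp only [mul_assoc]
    _ = e + (ε * (m - 1)) • (ε • (a * s * t * e)) := by
        rw [h.h1, mul_add, e1, mul_smul_comm, e2]
    _ = _ := by
        rw [smul_smul]
        congr 2
        linear_combination (m - 1) * h.hε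

theorem h2' : m • (e * t * e * t) = e + (m - 1) • (e * t * s * a) := by
  have e1 : e * t * t = e := by rw [mul_assoc, h.tt, mul_one]
  have e2 : (e * t * s * a) * t = ε • (e * t * s * a) := by
    calc (e * t * s * a) * t = e * t * s * (a * t) := by simp only [mul_assoc]
      _ = e * (t * s * t) * a := by rw [← h.ta]; simp only [mul_assoc]
      _ = (e * s) * t * s * a := by rw [← h.sts]; simp only [mul_assoc]
      _ = _ := by rw [h.es]; simp only [smul_mul_assoc]
  calc m • (e * t * e * t) = (m • (e * t * e)) * t := by
        rw [smul_mul_assoc]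
    _ = e + (ε * (m - 1)) • (ε • (e * t * s * a)) := by
        rw [h.h1', add_mul, e1, smul_mul_assoc, e2]
    _ = _ := by
        rw [smul_smul]
        congr 2
        linear_combination (m - 1) * h.hε

theorem left : t * (e + (ε * m) • (e * t * e)) = ε • (e + (ε * m) • (e * t * e)) := by
  have e1 : t * (e + (ε * m) • (e * t * e)) = t * e + ε • (m • (t * e * t * e)) := by
    rw [mul_add, mul_smul_comm, smul_smul]
    simp only [mul_assoc]
  have e2 : ε • (e + (ε * m) • (e * t * e)) = ε • e + m • (e * t * e) := by
    rw [smul_add, smul_smul, ← mul_assoc, h.hε, one_mul]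
  rw [e1, e2, h.h2, h.h1, smul_add, smul_smul]
  abel

theorem right : (e + (ε * m) • (e * t * e)) * t = ε • (e + (ε * m) • (e * t * e)) := by
  have e1 : (e + (ε * m) • (e * t * e)) * t = e * t + ε • (m • (e * t * e * t)) := by
    rw [add_mul, smul_mul_assoc, smul_smul]
  have e2 : ε • (e + (ε * m) • (e * t * e)) = ε • e + m • (e * t * e) := by
    rw [smul_add, smul_smul, ← mul_assoc, h.hε, one_mul]
  rw [e1, e2, h.h2', h.h1', smul_add, smul_smul]
  abel

theorem idem : (e + (ε * m) • (e * t * e)) * (e + (ε * m) • (e * t * e)) =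
    (m + 1) • (e + (ε * m) • (e * t * e)) := by
  have e1 : e * (e * t * e) = e * t * e := by rw [← mul_assoc, ← mul_assoc, h.ee]
  have e2 : (e * t * e) * e = e * t * e := by rw [mul_assoc, h.ee]
  have e3 : m • ((e * t * e) * (e * t * e)) = e + ((m - 1) * ε) • (e * t * e) := by
    have e4 : (e * t * e) * (e * t * e) = e * (t * e * t * e) := by
      calc (e * t * e) * (e * t * e) = e * t * (e * e) * t * e := by simp only [mul_assoc]
        _ = _ := by rw [h.ee]; simp only [mul_assoc]
    have e5 : e * (a * s * t * e) = ε • (e * t * e) := by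
      calc e * (a * s * t * e) = (e * a) * s * t * e := by simp only [mul_assoc]
        _ = _ := by rw [h.ea, h.es]; simp only [smul_mul_assoc]
    rw [e4, ← mul_smul_comm, h.h2, mul_add, h.ee, mul_smul_comm, e5, smul_smul]
  have e6 : ((ε * m) * (ε * m)) • ((e * t * e) * (e * t * e)) =
      m • e + (m * ((m - 1) * ε)) • (e * t * e) := by
    have : (ε * m) * (ε * m) = m * m := by linear_combination (m * m) * h.hε
    rw [this, ← smul_smul, e3, smul_add, smul_smul]
  rw [mul_add, add_mul, add_mul, h.ee, smul_mul_assoc, mul_smul_comm, smul_mul_assoc,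
    mul_smul_comm, smul_smul, e1, e2, e6, smul_add, smul_smul]
  module

/-- The sum of the transpositions with the last factor, times the idempotent. -/
theorem jm {J : R} (hJ : J * a = ε • (m • e - a)) : (t + t * J * t) * e = m • (e * t * e) := by
  have e1 : t * J * t * e = (ε * m) • (t * e * t * e) - ε • e := by
    calc t * J * t * e = t * J * t * (a * e) := by rw [h.ae]
      _ = t * (J * a) * t * e := by
          rw [← mul_assoc, mul_assoc (t * J) t a, h.ta]; simp only [mul_assoc]
      _ = ε • (t * (m • e - a) * t * e) := by rw [hJ]; simp only [mul_smul_comm, smul_mul_assoc]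
      _ = ε • (m • (t * e * t * e) - t * a * t * e) := by
          rw [mul_sub, sub_mul, sub_mul, mul_smul_comm, smul_mul_assoc, smul_mul_assoc]
      _ = _ := by
          have : t * a * t * e = e := by
            rw [h.ta, mul_assoc a t t, h.tt, mul_one, h.ae]
          rw [this, smul_sub, smul_smul]
  rw [add_mul, e1, h.h1, ← smul_smul, h.h2, smul_add, smul_smul]
  abel

/-- The mirror image of `jm`. -/
theorem jm' {J : R} (hJ : a * J = ε • (m • e - a)) : e * (t + t * J * t) = m • (e * t * e) := by
  have e1 : e * (t * J * t) = (ε * m) • (e * t * e * t) - ε • e := by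
    calc e * (t * J * t) = (e * a) * t * J * t := by rw [h.ea]; simp only [mul_assoc]
      _ = e * t * (a * J) * t := by
          rw [mul_assoc e a t, ← h.ta]; simp only [mul_assoc]
      _ = ε • (e * t * (m • e - a) * t) := by rw [hJ]; simp only [mul_smul_comm, smul_mul_assoc]
      _ = ε • (m • (e * t * e * t) - e * t * a * t) := by
          rw [mul_sub, sub_mul, mul_smul_comm, smul_mul_assoc]
      _ = _ := by
          have : e * t * a * t = e := by
            rw [mul_assoc e t a, h.ta, mul_assoc, mul_assoc, h.tt, mul_one, h.ea]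
          rw [this, smul_sub, smul_smul]
  rw [mul_add, e1, h.h1', ← smul_smul, h.h2', smul_add, smul_smul]
  abel

end Step

end Pool.Agent.TH90.Kim
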