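import Pool.Agent.TH90.Kim.Ten

/-!
# Nilpotence of endomorphisms with zero traces
-/

open CategoryTheory MonoidalCategory Limits BraidedCategory

universe u v

namespace Pool.Agent.TH90.Kim

open Pool.Agent.TH90.AB

set_option linter.unusedSectionVars false

noncomputable section

variable {𝒜 : Type u} [Category.{v} 𝒜] [MonoidalCategory 𝒜] [SymmetricCategory 𝒜]
  [Preadditive 𝒜] [MonoidalPreadditive 𝒜] [Linear ℚ 𝒜] [MonoidalLinear ℚ 𝒜]

/-- The sum of the transpositions of the last factor with the other factors. -/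
def Jm (P : 𝒜) : ∀ n, T P (n + 1) ⟶ T P (n + 1)
  | 0 => 0
  | n + 1 => sw (T P n) P + sw (T P n) P ≫ Jm P n ▷ P ≫ sw (T P n) P

/-- The sum of all permutations (`ε = 1`), with signs for `ε = -1`. -/
def En (ε : ℚ) (P : 𝒜) : ∀ n, T P (n + 1) ⟶ T P (n + 1)
  | 0 => 𝟙 _
  | n + 1 => (𝟙 _ + ε • Jm P (n + 1)) ≫ En ε P n ▷ P

lemma Jm_sy {ε : ℚ} (hε : ε * ε = 1) (P : 𝒜) (n : ℕ) : Jm P (n + 1) ≫ sy ε P (n + 1) ▷ P =
    ε • (((n : ℚ) + 2) • sy ε P (n + 2) - sy ε P (n + 1) ▷ P) := by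
  induction n with
  | zero =>
    rw [sy_mul, add_sub_cancel_left, smul_smul]
    simp only [Jm, sy, MonoidalPreadditive.zero_whiskerRight, zero_comp, comp_zero, add_zero,
      id_whiskerRight, Category.comp_id, Category.id_comp, Nat.cast_zero, zero_add, mul_one]
    rw [hε, one_smul]
  | succ k ih =>
    have h := step hε (isSy hε P (k + 1)) (isSy hε P (k + 2))
    have hJ : (show End (T P (k + 3)) from (sy ε P (k + 1) ▷ P) ▷ P) *
        (show End (T P (k + 3)) from Jm P (k + 1) ▷ P) =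
        ε • (((k : ℚ) + 2) • (show End (T P (k + 3)) from sy ε P (k + 2) ▷ P) -
          (show End (T P (k + 3)) from (sy ε P (k + 1) ▷ P) ▷ P)) := by
      change Jm P (k + 1) ▷ P ≫ (sy ε P (k + 1) ▷ P) ▷ P =
        ε • (((k : ℚ) + 2) • (sy ε P (k + 2) ▷ P) - (sy ε P (k + 1) ▷ P) ▷ P)
      rw [← comp_whiskerRight, ih, MonoidalLinear.smul_whiskerRight]
      congr 1
      rw [sub_eq_add_neg, MonoidalPreadditive.add_whiskerRight, MonoidalLinear.smul_whiskerRight,
        sub_eq_add_neg]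
      congr 1
      rw [← neg_one_smul ℚ, MonoidalLinear.smul_whiskerRight, neg_one_smul]
    have h1 := h.jm' hJ
    have h2 : Jm P (k + 2) ≫ sy ε P (k + 2) ▷ P = ((k : ℚ) + 2) • (sy ε P (k + 2) ▷ P ≫
        sw (T P (k + 1)) P ≫ sy ε P (k + 2) ▷ P) := h1
    rw [h2, sy_mul, add_sub_cancel_left, smul_smul]
    congr 1
    push_cast
    linear_combination (-(k : ℚ) - 2) * hε

lemma En_eq {ε : ℚ} (hε : ε * ε = 1) (P : 𝒜) (n : ℕ) :
    En ε P n = ((n + 1).factorial : ℚ) • sy ε P (n + 1) := by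
  induction n with
  | zero => simp [En, sy]
  | succ n ih =>
    have e1 : (𝟙 _ + ε • Jm P (n + 1)) ≫ sy ε P (n + 1) ▷ P = ((n : ℚ) + 2) • sy ε P (n + 2) := by
      rw [Preadditive.add_comp, Category.id_comp, Linear.smul_comp, Jm_sy hε, smul_smul, hε,
        one_smul]
      abel
    simp only [En]
    rw [ih, MonoidalLinear.smul_whiskerRight, Linear.comp_smul, e1, smul_smul]
    congr 1
    rw [Nat.factorial_succ (n + 1)]
    push_cast
    ring

/-- The powers of an endomorphism. -/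
def pw {P : 𝒜} (f : P ⟶ P) (k : ℕ) : P ⟶ P := (show End P from f) ^ k

lemma pw_add {P : 𝒜} (f : P ⟶ P) (a b : ℕ) : pw f a ≫ pw f b = pw f (b + a) := by
  unfold pw
  rw [pow_add]
  rfl

/-- `f ^ (k 0) ⊗ ⋯ ⊗ f ^ (k n)`. -/
def fp {P : 𝒜} (f : P ⟶ P) (k : ℕ → ℕ) : ∀ n, T P (n + 1) ⟶ T P (n + 1)
  | 0 => 𝟙_ 𝒜 ◁ pw f (k 0)
  | n + 1 => fp f k n ▷ P ≫ T P (n + 1) ◁ pw f (k (n + 1))

/-- The sum of the actions of `g` on the factors. -/
def Sn {P : 𝒜} (g : P ⟶ P) : ∀ n, T P (n + 1) ⟶ T P (n + 1)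
  | 0 => 𝟙_ 𝒜 ◁ g
  | n + 1 => T P (n + 1) ◁ g + Sn g n ▷ P

lemma fp_congr {P : 𝒜} (f : P ⟶ P) {k l : ℕ → ℕ} (n : ℕ) (h : ∀ j ≤ n, k j = l j) :
    fp f k n = fp f l n := by
  induction n with
  | zero => simp only [fp]; rw [h 0 le_rfl]
  | succ n ih =>
    simp only [fp]
    rw [ih (fun j hj => h j (by omega)), h (n + 1) le_rfl]

lemma sum_whiskerRight' {X Y : 𝒜} {ι : Type} (s : Finset ι) (g : ι → (X ⟶ Y)) (Z : 𝒜) :
    (∑ i ∈ s, g i) ▷ Z = ∑ i ∈ s, g i ▷ Z := by
  classical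
  induction s using Finset.induction_on with
  | empty => simp
  | insert a s ha ih => rw [Finset.sum_insert ha, Finset.sum_insert ha,
      MonoidalPreadditive.add_whiskerRight, ih]

lemma fp_Sn {P : 𝒜} (f : P ⟶ P) (k : ℕ → ℕ) (a : ℕ) (n : ℕ) :
    fp f k n ≫ Sn (pw f a) n =
      ∑ j ∈ Finset.range (n + 1), fp f (Function.update k j (k j + a)) n := by
  induction n with
  | zero =>
    simp only [fp, Sn, zero_add, Finset.range_one, Finset.sum_singleton, Function.update_self]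
    rw [← MonoidalCategory.whiskerLeft_comp, pw_add, Nat.add_comm a (k 0)]
  | succ n ih =>
    rw [Finset.sum_range_succ]
    simp only [fp, Sn, Function.update_self]
    have e1 : ∀ j ∈ Finset.range (n + 1),
        fp f (Function.update k j (k j + a)) n ▷ P ≫ T P (n + 1) ◁
          pw f (Function.update k j (k j + a) (n + 1)) =
        fp f (Function.update k j (k j + a)) n ▷ P ≫ T P (n + 1) ◁ pw f (k (n + 1)) := by
      intro j hj
      rw [Finset.mem_range] at hj
      rw [Function.update_of_ne (by omega)]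
    have e2 : fp f (Function.update k (n + 1) (k (n + 1) + a)) n = fp f k n :=
      fp_congr f n (fun j hj => Function.update_of_ne (by omega) _ _)
    rw [Finset.sum_congr rfl e1, ← Preadditive.sum_comp, ← sum_whiskerRight', ← ih, e2,
      Preadditive.comp_add, Category.assoc, Category.assoc, ← MonoidalCategory.whiskerLeft_comp,
      pw_add, Nat.add_comm a, whisker_exchange, comp_whiskerRight, Category.assoc]
    exact add_comm _ _

section trace

variable [hdual : ∀ X : 𝒜, HasRightDual X]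

lemma ptr_Jm {P : 𝒜} (g : P ⟶ P) (n : ℕ) : ptr (T P (n + 1) ◁ g ≫ Jm P (n + 1)) = Sn g n := by
  induction n with
  | zero =>
    simp only [Jm, MonoidalPreadditive.zero_whiskerRight, zero_comp, comp_zero, add_zero, Sn]
    exact ptr_whisker_sw g
  | succ n ih =>
    have e1 : T P (n + 2) ◁ g ≫ sw (T P (n + 1)) P = sw (T P (n + 1)) P ≫ (T P (n + 1) ◁ g) ▷ P := by
      have h1 : (T P (n + 1) ⊗ P) ◁ g ≫ (α_ (T P (n + 1)) P P).hom =
          (α_ (T P (n + 1)) P P).hom ≫ T P (n + 1) ◁ P ◁ g := by simp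
      have h2 : T P (n + 1) ◁ g ▷ P ≫ (α_ (T P (n + 1)) P P).inv =
          (α_ (T P (n + 1)) P P).inv ≫ (T P (n + 1) ◁ g) ▷ P := by simp
      change (T P (n + 1) ⊗ P) ◁ g ≫ sw (T P (n + 1)) P = _
      simp only [sw, Category.assoc]
      rw [reassoc_of% h1, ← whiskerLeft_comp_assoc, braiding_naturality_right,
        whiskerLeft_comp_assoc, h2]
    have e2 : T P (n + 2) ◁ g ≫ Jm P (n + 2) = T P (n + 2) ◁ g ≫ sw (T P (n + 1)) P +
        sw (T P (n + 1)) P ≫ (T P (n + 1) ◁ g ≫ Jm P (n + 1)) ▷ P ≫ sw (T P (n + 1)) P := by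
      change T P (n + 2) ◁ g ≫ (sw (T P (n + 1)) P + sw (T P (n + 1)) P ≫ Jm P (n + 1) ▷ P ≫
        sw (T P (n + 1)) P) = _
      rw [Preadditive.comp_add, reassoc_of% e1, comp_whiskerRight, Category.assoc]
    rw [e2, ptr_add, ptr_sw_conj, ih]
    simp only [Sn]
    congr 1
    exact ptr_whisker_sw g

/-- The contraction of all factors but the first. -/
def PT {P : 𝒜} : ∀ n, (T P (n + 1) ⟶ T P (n + 1)) → (T P 1 ⟶ T P 1)
  | 0, g => g
  | n + 1, g => PT n (ptr g)

lemma PT_smul {P : 𝒜} (n : ℕ) (c : ℚ) (g : T P (n + 1) ⟶ T P (n + 1)) :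
    PT n (c • g) = c • PT n g := by
  induction n with
  | zero => rfl
  | succ n ih =>
    simp only [PT]
    rw [ptr_smul, ih]

lemma PT_zero {P : 𝒜} (n : ℕ) : PT n (0 : T P (n + 1) ⟶ T P (n + 1)) = 0 := by
  have := PT_smul (P := P) n 0 0
  rwa [zero_smul, zero_smul] at this

lemma PT_add {P : 𝒜} (n : ℕ) (f g : T P (n + 1) ⟶ T P (n + 1)) :
    PT n (f + g) = PT n f + PT n g := by
  induction n with
  | zero => rfl
  | succ n ih =>
    simp only [PT]
    rw [ptr_add, ih]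

lemma PT_sum {P : 𝒜} (n : ℕ) {ι : Type} (s : Finset ι) (g : ι → (T P (n + 1) ⟶ T P (n + 1))) :
    PT n (∑ i ∈ s, g i) = ∑ i ∈ s, PT n (g i) := by
  classical
  induction s using Finset.induction_on with
  | empty => simpa using PT_zero n
  | insert a s ha ih => rw [Finset.sum_insert ha, Finset.sum_insert ha, PT_add, ih]

lemma PT_fp {ε : ℚ} {P : 𝒜} {f : P ⟶ P} (hf : ∀ k, tr (pw f (k + 1)) = 0) (n : ℕ) :
    ∀ k : ℕ → ℕ, (∀ j, 1 ≤ k j) → PT n (fp f k n ≫ En ε P n) =
      (ε ^ n * n.factorial) • (𝟙_ 𝒜 ◁ pw f (∑ j ∈ Finset.range (n + 1), k j)) := by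
  induction n with
  | zero =>
    intro k _
    simp [PT, fp, En]
  | succ n ih =>
    intro k hk
    have e1 : ptr (T P (n + 1) ◁ pw f (k (n + 1))) = 0 := by
      obtain ⟨m, hm⟩ : ∃ m, k (n + 1) = m + 1 := ⟨k (n + 1) - 1, by have := hk (n + 1); omega⟩
      have : tr (pw f (k (n + 1))) = (0 : ℚ) • 𝟙 (𝟙_ 𝒜) := by rw [hm, hf, zero_smul]
      rw [ptr_scalar this, zero_smul]
    have e2 : ptr (fp f k (n + 1) ≫ En ε P (n + 1)) =
        ε • ∑ j ∈ Finset.range (n + 1),
          fp f (Function.update k j (k j + k (n + 1))) n ≫ En ε P n := by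
      simp only [fp, En, Category.assoc]
      have e3 : T P (n + 1) ◁ pw f (k (n + 1)) ≫ (𝟙 _ + ε • Jm P (n + 1)) ≫ En ε P n ▷ P =
          (T P (n + 1) ◁ pw f (k (n + 1)) + ε • (T P (n + 1) ◁ pw f (k (n + 1)) ≫ Jm P (n + 1))) ≫
            En ε P n ▷ P := by
        rw [← Category.assoc, Preadditive.comp_add, Linear.comp_smul, Category.comp_id]
      rw [e3, ptr_left, ptr_right, ptr_add, ptr_smul, e1, zero_add, ptr_Jm, Linear.smul_comp,
        Linear.comp_smul, ← Category.assoc, fp_Sn, Preadditive.sum_comp]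
    simp only [PT]
    rw [e2, PT_smul, PT_sum]
    have e4 : ∀ j ∈ Finset.range (n + 1),
        PT n (fp f (Function.update k j (k j + k (n + 1))) n ≫ En ε P n) =
          (ε ^ n * n.factorial) • (𝟙_ 𝒜 ◁ pw f (∑ j ∈ Finset.range (n + 2), k j)) := by
      intro j hj
      rw [ih]
      · congr 3
        rw [Finset.sum_range_succ _ (n + 1), Finset.sum_update_of_mem hj,
          ← Finset.add_sum_erase _ _ hj, Finset.sdiff_singleton_eq_erase]
        ring
      · intro i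
        rcases eq_or_ne i j with rfl | hij
        · rw [Function.update_self]
          have := hk i
          omega
        · rw [Function.update_of_ne hij]
          exact hk i
    rw [Finset.sum_congr rfl e4, Finset.sum_const, Finset.card_range, ← Nat.cast_smul_eq_nsmul ℚ,
      smul_smul, smul_smul]
    congr 1
    rw [Nat.factorial_succ]
    push_cast
    ring

/-- **Cayley-Hamilton.** If the `(n + 1)`-st symmetric or exterior power of `P` is zero and the
traces of the powers of `f` are zero, then `f ^ (n + 1) = 0`. -/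
theorem pw_eq_zero {ε : ℚ} (hε : ε * ε = 1) {P : 𝒜} {n : ℕ} (hP : PowZero ε P (n + 1))
    {f : P ⟶ P} (hf : ∀ k, tr (pw f (k + 1)) = 0) : pw f (n + 1) = 0 := by
  have h0 : En ε P n = 0 := by
    rw [En_eq hε, (powZero_iff hε P (n + 1)).mp hP, smul_zero]
  have h1 := PT_fp (ε := ε) hf n (fun _ => 1) (fun _ => le_rfl)
  rw [h0, comp_zero, PT_zero] at h1
  have hc : (ε ^ n * (n.factorial : ℚ)) ≠ 0 := by
    have : ε ≠ 0 := by
      rintro rfl
      norm_num at hε
    positivity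
  have h2 := (smul_eq_zero_iff_right hc).mp h1.symm
  have h3 : pw f (n + 1) = (λ_ P).inv ≫ 𝟙_ 𝒜 ◁ pw f (n + 1) ≫ (λ_ P).hom := by simp
  have h4 : ∑ j ∈ Finset.range (n + 1), (fun _ => 1) j = n + 1 := by simp
  rw [h4] at h2
  rw [h3, h2, zero_comp, comp_zero]

end trace

end

end Pool.Agent.TH90.Kim
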