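import Mathlib.CategoryTheory.Monoidal.Rigid.Braided
import Mathlib.CategoryTheory.Monoidal.Preadditive
import Mathlib.CategoryTheory.Monoidal.Linear
import Mathlib.CategoryTheory.Idempotents.Basic
import Mathlib.LinearAlgebra.FiniteDimensional.Basic
import Mathlib.LinearAlgebra.Trace
import Mathlib.Tactic

/-!
# Kimura-finite objects and realisations: the definitions
-/

open CategoryTheory MonoidalCategory Limits BraidedCategory

universe u v w

namespace Pool.Agent.TH90.Kim

set_option linter.unusedSectionVars false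

noncomputable section

section

variable {𝒜 : Type u} [Category.{v} 𝒜] [MonoidalCategory 𝒜] [SymmetricCategory 𝒜]

/-- The transposition of the last two factors. -/
def sw (X P : 𝒜) : (X ⊗ P) ⊗ P ⟶ (X ⊗ P) ⊗ P :=
  (α_ X P P).hom ≫ X ◁ (β_ P P).hom ≫ (α_ X P P).inv

/-- The tensor powers of `P`: `T P 0` is the unit, `T P (n + 1) = T P n ⊗ P`. -/
@[reducible] def T (P : 𝒜) : ℕ → 𝒜
  | 0 => 𝟙_ 𝒜
  | n + 1 => T P n ⊗ P

/-- The transpositions of neighbouring factors of the tensor powers. -/
inductive Adj (P : 𝒜) : ∀ n, (T P n ⟶ T P n) → Prop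
  | last (n : ℕ) : Adj P (n + 2) (sw (T P n) P)
  | whisker (n : ℕ) (s : T P n ⟶ T P n) (hs : Adj P n s) : Adj P (n + 1) (s ▷ P)

variable [Preadditive 𝒜] [MonoidalPreadditive 𝒜] [Linear ℚ 𝒜] [MonoidalLinear ℚ 𝒜]

/-- `g` is multiplied with `ε` by the transpositions of neighbouring factors: for `ε = 1` it is
symmetric, for `ε = -1` it is alternating. -/
def Signed (ε : ℚ) {P Y : 𝒜} {n : ℕ} (g : T P n ⟶ Y) : Prop := ∀ s, Adj P n s → s ≫ g = ε • g

/-- All symmetric (`ε = 1`) or alternating (`ε = -1`) morphisms on the `n`-th tensor power are zero,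
i.e. the `n`-th symmetric or exterior power of `P` is zero. -/
def PowZero (ε : ℚ) (P : 𝒜) (n : ℕ) : Prop :=
  ∀ (Y : 𝒜) (g : T P n ⟶ Y), Signed ε g → g = 0

/-- A decomposition of `M` as a direct sum of `P` and `Q`. -/
structure Split (M P Q : 𝒜) where
  i : P ⟶ M
  r : M ⟶ P
  j : Q ⟶ M
  s : M ⟶ Q
  ir : i ≫ r = 𝟙 P
  js : j ≫ s = 𝟙 Q
  sum : r ≫ i + s ≫ j = 𝟙 M

/-- `M` is Kimura-finite: it is the direct sum of an object with a vanishing exterior power and an
object with a vanishing symmetric power. -/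
def KimuraFinite (M : 𝒜) : Prop :=
  ∃ P Q : 𝒜, Nonempty (Split M P Q) ∧ (∃ n, PowZero (-1) P n) ∧ ∃ n, PowZero 1 Q n

end

/-- The data of a realisation of the monoidal category `𝒜` in super vector spaces over `K`:
finite-dimensional vector spaces `V X` with a parity operator `par` (`1` on the even part, `-1` on
the odd part), maps `map f`, exterior products `ext x y` and the generator `one` of the vector space
of the unit object. -/
structure RealData (𝒜 : Type u) [Category.{v} 𝒜] [MonoidalCategory 𝒜] (K : Type w)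
    [Field K] where
  V : 𝒜 → Type w
  [grp : ∀ X, AddCommGroup (V X)]
  [mod : ∀ X, Module K (V X)]
  [fin : ∀ X, FiniteDimensional K (V X)]
  map : ∀ {X Y : 𝒜}, (X ⟶ Y) → V X → V Y
  par : ∀ {X : 𝒜}, V X → V X
  ext : ∀ {X Y : 𝒜}, V X → V Y → V (X ⊗ Y)
  one : V (𝟙_ 𝒜)

attribute [instance] RealData.grp RealData.mod RealData.fin

variable {𝒜 : Type u} [Category.{v} 𝒜] [MonoidalCategory 𝒜] {K : Type w} [Field K]

/-- `map` is a functor with values in the vector spaces. -/
structure RealData.Functorial (F : RealData 𝒜 K) : Prop where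
  map_id : ∀ (X : 𝒜) (x : F.V X), F.map (𝟙 X) x = x
  map_comp : ∀ (X Y Z : 𝒜) (f : X ⟶ Y) (g : Y ⟶ Z) (x : F.V X),
    F.map (f ≫ g) x = F.map g (F.map f x)
  add : ∀ (X Y : 𝒜) (f : X ⟶ Y) (x y : F.V X), F.map f (x + y) = F.map f x + F.map f y
  smul : ∀ (X Y : 𝒜) (f : X ⟶ Y) (c : K) (x : F.V X), F.map f (c • x) = c • F.map f x

/-- The functor is `ℚ`-linear. -/
structure RealData.RatLinear (F : RealData 𝒜 K) [Preadditive 𝒜] [Linear ℚ 𝒜] : Prop where
  map_add : ∀ (X Y : 𝒜) (f g : X ⟶ Y) (x : F.V X), F.map (f + g) x = F.map f x + F.map g x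
  map_smul : ∀ (X Y : 𝒜) (q : ℚ) (f : X ⟶ Y) (x : F.V X), F.map (q • f) x = (q : K) • F.map f x

/-- The parity is a linear involution, compatible with morphisms and exterior products. -/
structure RealData.Super (F : RealData 𝒜 K) : Prop where
  add : ∀ (X : 𝒜) (x y : F.V X), F.par (x + y) = F.par x + F.par y
  smul : ∀ (X : 𝒜) (c : K) (x : F.V X), F.par (c • x) = c • F.par x
  par_par : ∀ (X : 𝒜) (x : F.V X), F.par (F.par x) = x
  par_map : ∀ (X Y : 𝒜) (f : X ⟶ Y) (x : F.V X), F.par (F.map f x) = F.map f (F.par x)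
  par_ext : ∀ (X Y : 𝒜) (x : F.V X) (y : F.V Y), F.par (F.ext x y) = F.ext (F.par x) (F.par y)
  par_one : F.par F.one = F.one

/-- The exterior product is additive in both variables. -/
structure RealData.Biadditive (F : RealData 𝒜 K) : Prop where
  left : ∀ (X Y : 𝒜) (x x' : F.V X) (y : F.V Y), F.ext (x + x') y = F.ext x y + F.ext x' y
  right : ∀ (X Y : 𝒜) (x : F.V X) (y y' : F.V Y), F.ext x (y + y') = F.ext x y + F.ext x y'

/-- The exterior product is homogeneous in the first variable. -/
def RealData.HomogeneousLeft (F : RealData 𝒜 K) : Prop :=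
  ∀ (X Y : 𝒜) (c : K) (x : F.V X) (y : F.V Y), F.ext (c • x) y = c • F.ext x y

/-- The exterior product is homogeneous in the second variable. -/
def RealData.HomogeneousRight (F : RealData 𝒜 K) : Prop :=
  ∀ (X Y : 𝒜) (c : K) (x : F.V X) (y : F.V Y), F.ext x (c • y) = c • F.ext x y

/-- The exterior product is bilinear and natural. -/
structure RealData.Tensor (F : RealData 𝒜 K) : Prop where
  add : F.Biadditive
  smul_left : F.HomogeneousLeft
  smul_right : F.HomogeneousRight
  natural : ∀ (X X' Y Y' : 𝒜) (f : X ⟶ X') (g : Y ⟶ Y') (x : F.V X) (y : F.V Y),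
    F.map (f ⊗ₘ g) (F.ext x y) = F.ext (F.map f x) (F.map g y)

/-- The Künneth formula `V (X ⊗ Y) = V X ⊗ V Y` and `V 1 = K` (only the properties which are used):
each element of `V (X ⊗ Y)` is a sum of exterior products, the exterior product of non-zero elements
is not zero, and `one` is a basis of the vector space of the unit object. -/
structure RealData.Kunneth (F : RealData 𝒜 K) : Prop where
  sum : ∀ (X Y : 𝒜) (z : F.V (X ⊗ Y)), ∃ (n : ℕ) (a : Fin n → F.V X) (b : Fin n → F.V Y),
    z = ∑ i, F.ext (a i) (b i)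
  ne : ∀ (X Y : 𝒜) (x : F.V X) (y : F.V Y), x ≠ 0 → y ≠ 0 → F.ext x y ≠ 0
  one_ne : F.one ≠ 0
  span_one : ∀ u : F.V (𝟙_ 𝒜), ∃ c : K, u = c • F.one

/-- The exterior product is associative and unital. -/
structure RealData.Assoc (F : RealData 𝒜 K) : Prop where
  assoc : ∀ (X Y Z : 𝒜) (x : F.V X) (y : F.V Y) (z : F.V Z),
    F.map (α_ X Y Z).hom (F.ext (F.ext x y) z) = F.ext x (F.ext y z)
  left_unit : ∀ (X : 𝒜) (x : F.V X), F.map (λ_ X).hom (F.ext F.one x) = x
  right_unit : ∀ (X : 𝒜) (x : F.V X), F.map (ρ_ X).hom (F.ext x F.one) = x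

/-- The rule of Koszul for the symmetry: it exchanges the factors if one of them is even, and
exchanges them with a sign if both are odd. -/
structure RealData.Koszul (F : RealData 𝒜 K) [BraidedCategory 𝒜] : Prop where
  even : ∀ (X Y : 𝒜) (x : F.V X) (y : F.V Y), F.par x = x →
    F.map (β_ X Y).hom (F.ext x y) = F.ext y x
  odd : ∀ (X Y : 𝒜) (x : F.V X) (y : F.V Y), F.par x = -x → F.par y = -y →
    F.map (β_ X Y).hom (F.ext x y) = -F.ext y x

/-- A realisation of `𝒜` in super vector spaces over `K`, i.e. a symmetric monoidal `ℚ`-linear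
functor from `𝒜` to finite-dimensional super vector spaces over `K`. -/
structure SuperRealisation (𝒜 : Type u) [Category.{v} 𝒜] [MonoidalCategory 𝒜]
    [BraidedCategory 𝒜] [Preadditive 𝒜] [Linear ℚ 𝒜] (K : Type w) [Field K] extends
    RealData 𝒜 K where
  functorial : toRealData.Functorial
  ratLinear : toRealData.RatLinear
  super : toRealData.Super
  tensor : toRealData.Tensor
  kunneth : toRealData.Kunneth
  assoc : toRealData.Assoc
  koszul : toRealData.Koszul

end

end Pool.Agent.TH90.Kim
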