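import Pool.Agent.TH90.Kim.Light

/-!
# Graded realisations and Künneth projectors
-/

open CategoryTheory MonoidalCategory Limits BraidedCategory

universe u v w

namespace Pool.Agent.TH90.Kim

open Pool.Agent.TH90.AB

set_option linter.unusedSectionVars false

noncomputable section

/-- The sign `(-1)^i`. -/
def sgn (i : ℤ) : ℚ := if Even i then 1 else -1

lemma sgn_mul_sgn (i : ℤ) : sgn i * sgn i = 1 := by
  unfold sgn
  split_ifs <;> norm_num

variable {𝒜 : Type u} [Category.{v} 𝒜] [MonoidalCategory 𝒜] [SymmetricCategory 𝒜]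
  [Preadditive 𝒜] [MonoidalPreadditive 𝒜] [Linear ℚ 𝒜] [MonoidalLinear ℚ 𝒜]
  {K : Type w} [Field K] [CharZero K]

/-- A grading of a realisation. -/
structure Realisation.Gr (F : Realisation 𝒜 K) where
  pr : ∀ X : 𝒜, ℤ → F.V X →ₗ[K] F.V X
  idem : ∀ (X : 𝒜) (i : ℤ) (x : F.V X), pr X i (pr X i x) = pr X i x
  ortho : ∀ (X : 𝒜) (i j : ℤ) (x : F.V X), i ≠ j → pr X i (pr X j x) = 0
  bounded : ∀ X : 𝒜, ∃ m : ℕ, ∀ x : F.V X, x = ∑ i ∈ Finset.Icc (-(m : ℤ)) m, pr X i x
  par : ∀ (X : 𝒜) (i : ℤ) (x : F.V X), F.par X (pr X i x) = (sgn i : K) • pr X i x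
  ext : ∀ (X Y : 𝒜) (n a : ℤ) (x : F.V X) (y : F.V Y), pr X a x = x →
    pr (X ⊗ Y) n (F.ext x y) = F.ext x (pr Y (n - a) y)
  map : ∀ (X Y : 𝒜) (f : X ⟶ Y) (i : ℤ) (x : F.V X), F.map f (pr X i x) = pr Y i (F.map f x)

variable (F : Realisation 𝒜 K)

namespace Realisation

variable [hdual : ∀ X : 𝒜, HasRightDual X]

/-- The contraction of a linear endomorphism and the parity is the trace. -/
lemma contract_gen (N : 𝒜) (g : F.V N →ₗ[K] F.V N) {n : ℕ} (a : Fin n → F.V N)
    (b : Fin n → F.V Nᘁ) (h : F.map (η_ N Nᘁ) F.one = ∑ i, F.ext (a i) (b i)) :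
    ∑ i, F.map (ev N) (F.ext (F.par N (g (a i))) (b i)) =
      (LinearMap.trace K (F.V N) g) • F.one := by
  have hc : ∀ (i : Fin n) (v : F.V N), ∃ c : K, F.map (ε_ N Nᘁ) (F.ext (b i) v) = c • F.one :=
    fun i v => F.span_one _
  choose c hc using hc
  have inj : ∀ x y : K, x • F.one = y • F.one → x = y := fun x y hxy =>
    smul_left_injective K F.one_ne hxy
  let φ : Fin n → Module.Dual K (F.V N) := fun i =>
    { toFun := c i
      map_add' := by
        intro x y
        apply inj
        rw [← hc, add_smul, ← hc, ← hc, _root_.map_add, _root_.map_add]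
      map_smul' := by
        intro r x
        apply inj
        rw [← hc, _root_.map_smul, _root_.map_smul, hc, smul_smul]
        rfl }
  have hz : ∀ v : F.V N, ∑ i, φ i v • a i = v := by
    intro v
    have e1 := ExactPairing.evaluation_coevaluation N Nᘁ
    have e2 := congrArg (fun f => F.map f (F.ext F.one v)) e1
    simp only [F.map_comp, F.whiskerRight, F.left_unit] at e2
    rw [h, map_sum, LinearMap.sum_apply, map_sum, map_sum] at e2
    simp only [F.assoc, F.whiskerLeft, hc, _root_.map_smul] at e2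
    have e3 := congrArg (F.map (ρ_ N).hom) e2
    rw [map_sum] at e3
    simp only [_root_.map_smul, F.right_unit] at e3
    rw [← F.map_comp, Iso.inv_hom_id, F.map_id] at e3
    exact e3
  have hid : g = ∑ i, dualTensorHom K _ _ (φ i ⊗ₜ g (a i)) := by
    refine LinearMap.ext fun v => ?_
    rw [LinearMap.sum_apply]
    simp only [dualTensorHom_apply]
    conv_lhs => rw [← hz v, map_sum]
    exact Finset.sum_congr rfl fun i _ => by rw [_root_.map_smul]
  have ht : LinearMap.trace K (F.V N) g = ∑ i, φ i (g (a i)) := by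
    conv_lhs => rw [hid]
    rw [map_sum]
    refine Finset.sum_congr rfl fun i _ => ?_
    rw [LinearMap.trace_eq_contract_apply]
    simp
  rw [ht, Finset.sum_smul]
  refine Finset.sum_congr rfl fun i _ => ?_
  rw [F.ev_par, hc]
  rfl

namespace Gr

variable {F} (G : F.Gr)

/-- The dimension of the part of degree `j` with the sign `(-1)^j`. -/
def q (N : 𝒜) (j : ℤ) : ℚ := sgn j * (Module.finrank K (LinearMap.range (G.pr N j)) : ℚ)

lemma trace_pr (N : 𝒜) (j : ℤ) :
    LinearMap.trace K (F.V N) (G.pr N j) = (Module.finrank K (LinearMap.range (G.pr N j)) : K) := by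
  have hp : LinearMap.IsProj (LinearMap.range (G.pr N j)) (G.pr N j) :=
    ⟨fun x => LinearMap.mem_range_self _ x, by
      rintro x ⟨y, rfl⟩
      exact G.idem N j y⟩
  exact hp.trace

lemma contract_pr (N : 𝒜) (j : ℤ) {n : ℕ} (a : Fin n → F.V N) (b : Fin n → F.V Nᘁ)
    (h : F.map (η_ N Nᘁ) F.one = ∑ i, F.ext (a i) (b i)) :
    ∑ i, F.map (ev N) (F.ext (G.pr N j (a i)) (b i)) = ((G.q N j : ℚ) : K) • F.one := by
  have h1 := F.contract_gen N (G.pr N j) a b h
  have hs : ((sgn j : ℚ) : K) * ((sgn j : ℚ) : K) = 1 := by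
    rw [← Rat.cast_mul, sgn_mul_sgn, Rat.cast_one]
  have h2 : ∀ i, F.map (ev N) (F.ext (G.pr N j (a i)) (b i)) =
      ((sgn j : ℚ) : K) • F.map (ev N) (F.ext (F.par N (G.pr N j (a i))) (b i)) := by
    intro i
    rw [G.par, _root_.map_smul, LinearMap.smul_apply, _root_.map_smul, smul_smul, hs, one_smul]
  rw [Finset.sum_congr rfl fun i _ => h2 i, ← Finset.smul_sum, h1, smul_smul, G.trace_pr]
  congr 1
  unfold q
  push_cast
  ring

/-- The partial trace of a Künneth projector. -/
lemma map_ptr_pr {M N : 𝒜} {n : ℤ} {σ : M ⊗ N ⟶ M ⊗ N} (hσ : ∀ z, F.map σ z = G.pr _ n z)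
    {a : ℤ} {x : F.V M} (hx : G.pr M a x = x) :
    F.map (ptr σ) x = ((G.q N (n - a) : ℚ) : K) • x := by
  obtain ⟨l, u, b, h⟩ := F.exists_sum (F.map (η_ N Nᘁ) F.one)
  have e1 : F.map (ρ_ M).inv x = F.ext x F.one := F.map_inv _ (F.right_unit x)
  simp only [ptr, F.map_comp]
  rw [e1, F.whiskerLeft, h]
  simp only [map_sum, F.assoc_inv, F.whiskerRight, hσ, G.ext _ _ _ _ _ _ hx, F.assoc,
    F.whiskerLeft]
  rw [← map_sum, ← map_sum, G.contract_pr N (n - a) u b h, _root_.map_smul, _root_.map_smul,
    F.right_unit]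

/-- The Künneth projectors of `X` are induced by endomorphisms of `X`. -/
def Alg (X : 𝒜) : Prop := ∀ n, ∃ σ : X ⟶ X, ∀ z, F.map σ z = G.pr X n z

lemma pr_zero_of_bound {X : 𝒜} {m : ℕ} (hm : ∀ x : F.V X, x = ∑ i ∈ Finset.Icc (-(m : ℤ)) m,
    G.pr X i x) {i : ℤ} (hi : i ∉ Finset.Icc (-(m : ℤ)) m) (x : F.V X) : G.pr X i x = 0 := by
  conv_lhs => rw [hm x]
  rw [map_sum]
  exact Finset.sum_eq_zero fun j hj => G.ortho X i j x (by rintro rfl; exact hi hj)

/-- The lowest degree of a non-zero object. -/
lemma exists_lowest {N : 𝒜} (hN : ∃ y : F.V N, y ≠ 0) :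
    ∃ b0 : ℤ, G.q N b0 ≠ 0 ∧ ∀ b < b0, G.q N b = 0 := by
  obtain ⟨m, hm⟩ := G.bounded N
  have hz : ∀ b : ℤ, (∀ x, G.pr N b x = 0) → G.q N b = 0 := by
    intro b hb
    have : G.pr N b = 0 := LinearMap.ext hb
    unfold q
    rw [this, LinearMap.range_zero, finrank_bot]
    simp
  have hne : ∃ k : ℕ, ∃ x, G.pr N (-(m : ℤ) + k) x ≠ 0 := by
    by_contra hcon
    push Not at hcon
    obtain ⟨y, hy⟩ := hN
    apply hy
    rw [hm y]
    refine Finset.sum_eq_zero fun i hi => ?_
    rw [Finset.mem_Icc] at hi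
    have h1 := hcon (i + m).toNat y
    rwa [Int.toNat_of_nonneg (by linarith), show -(m : ℤ) + (i + m) = i by ring] at h1
  classical
  let k0 := Nat.find hne
  have hk0 : ∃ x, G.pr N (-(m : ℤ) + k0) x ≠ 0 := Nat.find_spec hne
  have hmin : ∀ k < k0, ∀ x, G.pr N (-(m : ℤ) + k) x = 0 := by
    intro k hk x
    have := Nat.find_min hne hk
    push Not at this
    exact this x
  refine ⟨-(m : ℤ) + k0, ?_, ?_⟩
  · obtain ⟨x, hx⟩ := hk0
    have h1 : 0 < Module.finrank K (LinearMap.range (G.pr N (-(m : ℤ) + k0))) := by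
      rw [Module.finrank_pos_iff_exists_ne_zero]
      exact ⟨⟨_, LinearMap.mem_range_self _ x⟩, fun h => hx (congrArg Subtype.val h)⟩
    unfold q
    have h2 : sgn (-(m : ℤ) + k0) ≠ 0 := by
      intro h0
      have := sgn_mul_sgn (-(m : ℤ) + k0)
      rw [h0] at this
      norm_num at this
    exact mul_ne_zero h2 (by exact_mod_cast h1.ne')
  · intro b hb
    apply hz
    intro x
    by_cases hbm : b < -(m : ℤ)
    · exact G.pr_zero_of_bound hm (by rw [Finset.mem_Icc]; intro h; linarith [h.1]) x
    · push Not at hbm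
      have h1 : ((b + m).toNat : ℤ) = b + m := Int.toNat_of_nonneg (by linarith)
      have h2 := hmin (b + m).toNat (by
        have : ((b + m).toNat : ℤ) < k0 := by rw [h1]; linarith
        exact_mod_cast this) x
      rwa [h1, show -(m : ℤ) + (b + m) = b by ring] at h2

/-- If the Künneth projectors of `M ⊗ N` are algebraic, so are those of `M`. -/
theorem Alg.left {M N : 𝒜} (hN : ∃ y : F.V N, y ≠ 0) (h : G.Alg (M ⊗ N)) : G.Alg M := by
  obtain ⟨b0, hb0, hlow⟩ := G.exists_lowest hN
  obtain ⟨m, hm⟩ := G.bounded M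
  have key : ∀ k : ℕ, ∀ a : ℤ, a < -(m : ℤ) + k → ∃ τ : M ⟶ M, ∀ x, F.map τ x = G.pr M a x := by
    intro k
    induction k with
    | zero =>
      intro a ha
      refine ⟨0, fun x => ?_⟩
      rw [F.map_zero', G.pr_zero_of_bound hm (by
        rw [Finset.mem_Icc]
        intro h
        push_cast at ha
        linarith [h.1])]
    | succ k ih =>
      intro a ha
      push_cast at ha
      by_cases hak : a < -(m : ℤ) + k
      · exact ih a hak
      · have hak' : a = -(m : ℤ) + k := by omega
        subst hak'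
        choose τ hτ using fun j : Fin k => ih (-(m : ℤ) + (j : ℕ)) (by
          have := j.2
          omega)
        obtain ⟨σ, hσ⟩ := h (-(m : ℤ) + k + b0)
        refine ⟨(G.q N b0)⁻¹ • (ptr σ - ∑ j : Fin k, G.q N (b0 + k - (j : ℕ)) • τ j),
          fun x => ?_⟩
        have msum : ∀ (s : Finset (Fin k)) (f : Fin k → (M ⟶ M)) (x : F.V M),
            F.map (∑ j ∈ s, f j) x = ∑ j ∈ s, F.map (f j) x := by
          intro s f x
          induction s using Finset.induction_on with
          | empty => simp [F.map_zero']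
          | insert i s hi ih => rw [Finset.sum_insert hi, Finset.sum_insert hi, F.map_add, ih]
        have hom : ∀ (i : ℤ) (x : F.V M), G.pr M i x = x →
            F.map ((G.q N b0)⁻¹ • (ptr σ - ∑ j : Fin k, G.q N (b0 + k - (j : ℕ)) • τ j)) x =
              G.pr M (-(m : ℤ) + k) x := by
          intro i x hx
          by_cases hi : i < -(m : ℤ)
          · have : x = 0 := by
              rw [← hx]
              exact G.pr_zero_of_bound hm (by rw [Finset.mem_Icc]; intro h; linarith [h.1]) x
            rw [this, _root_.map_zero, _root_.map_zero]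
          · push Not at hi
            obtain ⟨l, rfl⟩ : ∃ l : ℕ, i = -(m : ℤ) + l :=
              ⟨(i + m).toNat, by rw [Int.toNat_of_nonneg (by linarith)]; ring⟩
            have hτx : ∀ j : Fin k, F.map (τ j) x = if (j : ℕ) = l then x else 0 := by
              intro j
              rw [hτ]
              split_ifs with hjl
              · rw [hjl, hx]
              · rw [← hx]
                exact G.ortho M _ _ x (by
                  intro h
                  apply hjl
                  have : ((j : ℕ) : ℤ) = l := by linarith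
                  exact_mod_cast this)
            rw [F.map_smul, F.map_sub', G.map_ptr_pr hσ hx, msum]
            simp only [F.map_smul, hτx]
            have e1 : -(m : ℤ) + k + b0 - (-(m : ℤ) + l) = b0 + k - l := by ring
            rw [e1]
            rcases lt_trichotomy l k with hlk | hlk | hlk
            · have hpr : G.pr M (-(m : ℤ) + k) x = 0 := by
                rw [← hx]
                exact G.ortho M _ _ x (by omega)
              rw [hpr, Finset.sum_eq_single (⟨l, hlk⟩ : Fin k)]
              · simp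
              · intro j _ hj
                rw [if_neg (fun h => hj (Fin.ext h)), smul_zero]
              · intro hcon
                exact absurd (Finset.mem_univ _) hcon
            · subst hlk
              rw [hx, Finset.sum_eq_zero (fun j _ => by
                rw [if_neg (by have := j.2; omega), smul_zero]), sub_zero, smul_smul]
              have e2 : b0 + (l : ℤ) - l = b0 := by ring
              rw [e2]
              have e3 : ((G.q N b0)⁻¹ : ℚ) * G.q N b0 = 1 := inv_mul_cancel₀ hb0
              rw [← Rat.cast_mul, e3, Rat.cast_one, one_smul]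
            · have hpr : G.pr M (-(m : ℤ) + k) x = 0 := by
                rw [← hx]
                exact G.ortho M _ _ x (by omega)
              rw [hpr, hlow (b0 + k - l) (by omega), Finset.sum_eq_zero (fun j _ => by
                rw [if_neg (by have := j.2; omega), smul_zero])]
              simp
        have hx2 := hm x
        conv_lhs => rw [hx2]
        conv_rhs => rw [hx2]
        rw [map_sum, map_sum]
        exact Finset.sum_congr rfl fun i _ => hom i _ (G.idem M i x)
  intro a
  exact key (a + m + 1).toNat a (by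
    have := Int.self_le_toNat (a + m + 1)
    linarith)

/-- The Künneth projectors of isomorphic objects. -/
lemma Alg.of_iso {X Y : 𝒜} (e : X ≅ Y) (h : G.Alg X) : G.Alg Y := by
  intro n
  obtain ⟨σ, hσ⟩ := h n
  refine ⟨e.inv ≫ σ ≫ e.hom, fun z => ?_⟩
  rw [F.map_comp, F.map_comp, hσ, G.map, ← F.map_comp, e.inv_hom_id, F.map_id]

/-- If the Künneth projectors of `M ⊗ N` are algebraic, so are those of `N`. -/
theorem Alg.right {M N : 𝒜} (hM : ∃ x : F.V M, x ≠ 0) (h : G.Alg (M ⊗ N)) : G.Alg N :=
  Alg.left G hM (Alg.of_iso G (β_ M N) h)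

/-- If the Künneth projectors of `M` and `N` are algebraic, so are those of `M ⊗ N`. -/
theorem Alg.tensor {M N : 𝒜} (hM : G.Alg M) (hN : G.Alg N) : G.Alg (M ⊗ N) := by
  intro n
  choose σ hσ using hM
  choose τ hτ using hN
  obtain ⟨m, hm⟩ := G.bounded M
  refine ⟨∑ a ∈ Finset.Icc (-(m : ℤ)) m, (σ a ⊗ₘ τ (n - a)), fun z => ?_⟩
  have msum : ∀ (s : Finset ℤ) (f : ℤ → (M ⊗ N ⟶ M ⊗ N)) (z : F.V (M ⊗ N)),
      F.map (∑ j ∈ s, f j) z = ∑ j ∈ s, F.map (f j) z := by
    intro s f z
    induction s using Finset.induction_on with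
    | empty => simp [F.map_zero']
    | insert i s hi ih => rw [Finset.sum_insert hi, Finset.sum_insert hi, F.map_add, ih]
  have hom : ∀ (x : F.V M) (y : F.V N),
      F.map (∑ a ∈ Finset.Icc (-(m : ℤ)) m, (σ a ⊗ₘ τ (n - a))) (F.ext x y) =
        G.pr _ n (F.ext x y) := by
    intro x y
    rw [msum]
    simp only [F.ext_map, hσ, hτ]
    conv_rhs => rw [hm x, map_sum, LinearMap.sum_apply, map_sum]
    exact Finset.sum_congr rfl fun a _ => (G.ext _ _ n a _ y (G.idem M a x)).symm
  obtain ⟨l, u, b, rfl⟩ := F.exists_sum z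
  rw [map_sum, map_sum]
  exact Finset.sum_congr rfl fun i _ => hom _ _

end Gr

end Realisation

end

end Pool.Agent.TH90.Kim
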