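import Pool.Agent.TH90.Kim.Grad

/-!
# Graded realisations, in the form used in the statements
-/

open CategoryTheory MonoidalCategory Limits BraidedCategory

universe u v w

namespace Pool.Agent.TH90.Kim

set_option linter.unusedSectionVars false

noncomputable section

variable {𝒜 : Type u} [Category.{v} 𝒜] [MonoidalCategory 𝒜] [SymmetricCategory 𝒜]
  [Preadditive 𝒜] [Linear ℚ 𝒜] {K : Type w} [Field K]

/-- The data of a grading of a realisation: `pr i x` is the component of degree `i` of `x`. -/
structure GradData (F : SuperRealisation 𝒜 K) where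
  pr : ∀ {X : 𝒜}, ℤ → F.V X → F.V X

namespace GradData

variable {F : SuperRealisation 𝒜 K} (G : GradData F)

/-- The components are linear, they are projectors onto parts which are linearly independent, and
each vector space is the sum of finitely many of them. -/
structure Projectors : Prop where
  add : ∀ (X : 𝒜) (i : ℤ) (x y : F.V X), G.pr i (x + y) = G.pr i x + G.pr i y
  smul : ∀ (X : 𝒜) (i : ℤ) (c : K) (x : F.V X), G.pr i (c • x) = c • G.pr i x
  idem : ∀ (X : 𝒜) (i : ℤ) (x : F.V X), G.pr i (G.pr i x) = G.pr i x
  ortho : ∀ (X : 𝒜) (i j : ℤ) (x : F.V X), i ≠ j → G.pr i (G.pr j x) = 0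
  bounded : ∀ X : 𝒜, ∃ m : ℕ, ∀ x : F.V X, x = ∑ i ∈ Finset.Icc (-(m : ℤ)) m, G.pr i x

/-- The parity is the parity of the degree, morphisms respect the degree, and degrees are added in
exterior products. -/
structure Compatible : Prop where
  even : ∀ (X : 𝒜) (i : ℤ) (x : F.V X), Even i → F.par (G.pr i x) = G.pr i x
  odd : ∀ (X : 𝒜) (i : ℤ) (x : F.V X), ¬Even i → F.par (G.pr i x) = -G.pr i x
  map : ∀ (X Y : 𝒜) (f : X ⟶ Y) (i : ℤ) (x : F.V X), F.map f (G.pr i x) = G.pr i (F.map f x)
  ext : ∀ (X Y : 𝒜) (n a : ℤ) (x : F.V X) (y : F.V Y), G.pr a x = x →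
    G.pr n (F.ext x y) = F.ext x (G.pr (n - a) y)

/-- The Künneth projectors of `X` are induced by endomorphisms of `X`. -/
def KunnethAlgebraic (X : 𝒜) : Prop := ∀ n, ∃ σ : X ⟶ X, ∀ z, F.map σ z = G.pr n z

end GradData

/-- A graded realisation, i.e. a symmetric monoidal `ℚ`-linear functor to the finite-dimensional
graded vector spaces over `K`, with the rule of Koszul. -/
structure GradedRealisation (𝒜 : Type u) [Category.{v} 𝒜] [MonoidalCategory 𝒜]
    [SymmetricCategory 𝒜] [Preadditive 𝒜] [Linear ℚ 𝒜] (K : Type w) [Field K] where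
  super : SuperRealisation 𝒜 K
  grading : GradData super
  projectors : grading.Projectors
  compatible : grading.Compatible

/-- The grading as a structure of linear maps. -/
def GradedRealisation.toGr [CharZero K] (F : GradedRealisation 𝒜 K) : F.super.toReal.Gr where
  pr X i :=
    { toFun := F.grading.pr i
      map_add' := F.projectors.add X i
      map_smul' := F.projectors.smul X i }
  idem := F.projectors.idem
  ortho := F.projectors.ortho
  bounded := F.projectors.bounded
  par X i x := by
    change F.super.par (F.grading.pr i x) = (sgn i : K) • F.grading.pr i x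
    unfold sgn
    split_ifs with hi
    · rw [F.compatible.even X i x hi, Rat.cast_one, one_smul]
    · rw [F.compatible.odd X i x hi, Rat.cast_neg, Rat.cast_one, neg_one_smul]
  ext X Y n a x y hx := F.compatible.ext X Y n a x y hx
  map X Y f i x := F.compatible.map X Y f i x

end

end Pool.Agent.TH90.Kim
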