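import Mathlib

/-!
# The theorem of Nagata and Higman
-/

set_option autoImplicit false

namespace Pool.Agent.TH90.Kim

open Finset

section poly

theorem coeff_zero {V : Type*} [AddCommGroup V] [Module ℚ V] {m : ℕ} {c : ℕ → V}
    (h : ∀ t : ℚ, ∑ k ∈ range (m + 1), t ^ k • c k = 0) {k : ℕ} (hk : k ≤ m) : c k = 0 := by
  rw [← Module.forall_dual_apply_eq_zero_iff ℚ]
  intro φ
  let p : Polynomial ℚ := ∑ k ∈ range (m + 1), Polynomial.monomial k (φ (c k))
  have hp : p = 0 := by
    apply Polynomial.funext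
    intro t
    have h1 := congrArg φ (h t)
    rw [map_sum, map_zero] at h1
    simp only [p, Polynomial.eval_finsetSum, Polynomial.eval_monomial, Polynomial.eval_zero]
    rw [← h1]
    refine Finset.sum_congr rfl fun k _ => ?_
    rw [map_smul, smul_eq_mul, mul_comm]
  have h2 : p.coeff k = φ (c k) := by
    simp only [p, Polynomial.finsetSum_coeff, Polynomial.coeff_monomial]
    rw [Finset.sum_ite_eq' (range (m + 1)) k]
    simp [Nat.lt_succ_of_le hk]
  rw [← h2, hp, Polynomial.coeff_zero]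

end poly

variable {R : Type*} [Ring R] [Algebra ℚ R]

theorem expand (x y : R) (m : ℕ) : ∃ c : ℕ → R, (∀ k, m < k → c k = 0) ∧
    (∀ t : ℚ, (x + t • y) ^ m = ∑ k ∈ range (m + 1), t ^ k • c k) ∧ c 0 = x ^ m ∧
    c 1 = ∑ i ∈ range m, x ^ i * y * x ^ (m - 1 - i) := by
  induction m with
  | zero =>
    refine ⟨fun k => if k = 0 then 1 else 0, fun k hk => ?_, fun t => ?_, ?_, ?_⟩
    · simp only [ite_eq_right_iff]
      omega
    · simp
    · simp
    · simp
  | succ m ih =>
    obtain ⟨c, h1, h2, h3, h4⟩ := ih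
    refine ⟨fun k => c k * x + (if k = 0 then 0 else c (k - 1) * y), fun k hk => ?_, fun t => ?_,
      ?_, ?_⟩
    · simp only
      rw [h1 k (by omega), h1 (k - 1) (by omega), if_neg (by omega)]
      simp
    · have e1 : ∑ k ∈ range (m + 1 + 1), t ^ k • (c k * x + (if k = 0 then 0 else c (k - 1) * y)) =
          ∑ k ∈ range (m + 1), t ^ k • (c k * x) + ∑ k ∈ range (m + 1), t ^ (k + 1) • (c k * y) := by
        simp only [smul_add, Finset.sum_add_distrib]
        congr 1
        · rw [Finset.sum_range_succ, h1 (m + 1) (by omega)]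
          simp
        · rw [Finset.sum_range_succ']
          simp
      rw [e1, pow_succ, h2, mul_add, Finset.sum_mul, Finset.sum_mul]
      congr 1
      · exact Finset.sum_congr rfl fun k _ => by rw [smul_mul_assoc]
      · exact Finset.sum_congr rfl fun k _ => by
          rw [smul_mul_assoc, mul_smul_comm, smul_smul, pow_succ]
    · simp only [if_true, h3, add_zero, pow_succ]
    · simp only [one_ne_zero, if_false, h4, Nat.sub_self, h3]
      rw [Finset.sum_range_succ, Finset.sum_mul]
      congr 1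
      · refine Finset.sum_congr rfl fun i hi => ?_
        rw [mem_range] at hi
        rw [mul_assoc _ _ x, ← pow_succ]
        congr 2
        omega
      · simp

/-- Closed under addition and multiplication with arbitrary elements. -/
structure Idl (I : Set R) : Prop where
  zero : 0 ∈ I
  add : ∀ x y, x ∈ I → y ∈ I → x + y ∈ I
  left : ∀ d x, x ∈ I → d * x ∈ I
  right : ∀ x d, x ∈ I → x * d ∈ I

omit [Algebra ℚ R] in
theorem Idl.sum {I : Set R} (hI : Idl I) {ι : Type*} (s : Finset ι) (f : ι → R)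
    (h : ∀ i ∈ s, f i ∈ I) : ∑ i ∈ s, f i ∈ I := by
  classical
  induction s using Finset.induction_on with
  | empty => simpa using hI.zero
  | insert a s ha ih =>
    rw [Finset.sum_insert ha]
    exact hI.add _ _ (h a (mem_insert_self _ _)) (ih fun i hi => h i (mem_insert_of_mem hi))

theorem Idl.smul {I : Set R} (hI : Idl I) (q : ℚ) {x : R} (hx : x ∈ I) : q • x ∈ I := by
  rw [Algebra.smul_def]
  exact hI.left _ _ hx

/-- as a subspace -/
def Idl.sub {I : Set R} (hI : Idl I) : Submodule ℚ R where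
  carrier := I
  add_mem' := fun {x y} hx hy => hI.add x y hx hy
  zero_mem' := hI.zero
  smul_mem' := fun q _ hx => hI.smul q hx

omit [Algebra ℚ R] in
theorem Idl.pow {I : Set R} (hI : Idl I) {x : R} (hx : x ∈ I) {n : ℕ} (hn : 0 < n) : x ^ n ∈ I := by
  obtain ⟨m, rfl⟩ : ∃ m, n = m + 1 := ⟨n - 1, by omega⟩
  rw [pow_succ]
  exact hI.left _ _ hx

/-- linearisation -/
theorem lin {I B : Set R} (hI : Idl I) (hB : Idl B) {m : ℕ} (hm : 1 ≤ m)
    (h : ∀ x ∈ I, x ^ m ∈ B) {x y : R} (hx : x ∈ I) (hy : y ∈ I) :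
    ∑ i ∈ range m, x ^ i * y * x ^ (m - 1 - i) ∈ B := by
  obtain ⟨c, -, h2, -, h4⟩ := expand x y m
  rw [← h4]
  have h5 : (hB.sub.mkQ) (c 1) = 0 := by
    apply coeff_zero (m := m) (c := fun k => hB.sub.mkQ (c k)) _ hm
    intro t
    have h6 : (x + t • y) ^ m ∈ hB.sub := h _ (hI.add _ _ hx (hI.smul t hy))
    have h7 : hB.sub.mkQ ((x + t • y) ^ m) = 0 := (Submodule.Quotient.mk_eq_zero _).mpr h6
    rw [h2, map_sum] at h7
    rw [← h7]
    exact Finset.sum_congr rfl fun k _ => by rw [map_smul]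
  exact (Submodule.Quotient.mk_eq_zero _).mp h5

/-- the main identity -/
theorem key {I B : Set R} (hI : Idl I) (hB : Idl B) {n : ℕ} (h : ∀ x ∈ I, x ^ (n + 2) ∈ B)
    {x y z : R} (hx : x ∈ I) (hy : y ∈ I) (hz : z ∈ I) : x ^ (n + 1) * y * z ^ (n + 1) ∈ B := by
  have h1 : ∑ j ∈ range (n + 2), (∑ i ∈ range (n + 2), x ^ i * (y * z ^ j) * x ^ (n + 1 - i)) *
      z ^ (n + 1 - j) ∈ B :=
    hB.sum _ _ fun j _ => hB.right _ _ (lin hI hB (by omega) h hx (hI.right _ _ hy))
  have h2 : ∑ j ∈ range (n + 2), (∑ i ∈ range (n + 2), x ^ i * (y * z ^ j) * x ^ (n + 1 - i)) *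
      z ^ (n + 1 - j) = ∑ i ∈ range (n + 2), x ^ i * y *
        ∑ j ∈ range (n + 2), z ^ j * x ^ (n + 1 - i) * z ^ (n + 1 - j) := by
    simp only [Finset.sum_mul, Finset.mul_sum]
    rw [Finset.sum_comm]
    refine Finset.sum_congr rfl fun i _ => Finset.sum_congr rfl fun j _ => ?_
    simp only [mul_assoc]
  rw [h2, Finset.sum_range_succ] at h1
  have h3 : ∑ i ∈ range (n + 1), x ^ i * y *
      ∑ j ∈ range (n + 2), z ^ j * x ^ (n + 1 - i) * z ^ (n + 1 - j) ∈ B :=
    hB.sum _ _ fun i hi => by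
      rw [mem_range] at hi
      exact hB.left _ _ (lin hI hB (by omega) h hz (hI.pow hx (by omega)))
  have h4 : ∑ j ∈ range (n + 2), z ^ j * x ^ (n + 1 - (n + 1)) * z ^ (n + 1 - j) =
      ((n : ℚ) + 2) • z ^ (n + 1) := by
    have : ∀ j ∈ range (n + 2), z ^ j * x ^ (n + 1 - (n + 1)) * z ^ (n + 1 - j) = z ^ (n + 1) := by
      intro j hj
      rw [mem_range] at hj
      rw [Nat.sub_self, pow_zero, mul_one, ← pow_add]
      congr 1
      omega
    rw [Finset.sum_congr rfl this, Finset.sum_const, card_range, ← Nat.cast_smul_eq_nsmul ℚ]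
    push_cast
    rfl
  rw [h4] at h1
  have h5 : x ^ (n + 1) * y * (((n : ℚ) + 2) • z ^ (n + 1)) ∈ B := by
    have h6 := hB.add _ _ h1 (hB.smul (-1) h3)
    rw [neg_one_smul] at h6
    convert h6 using 1
    abel
  have h7 := hB.smul ((n : ℚ) + 2)⁻¹ h5
  have hn : ((n : ℚ) + 2) ≠ 0 := by positivity
  rw [mul_smul_comm, smul_smul, inv_mul_cancel₀ hn, one_smul] at h7
  exact h7

/-- **Nagata-Higman**, relative version. -/
theorem nh (n : ℕ) : ∀ (I B : Set R), Idl I → Idl B → (∀ x ∈ I, x ^ (n + 1) ∈ B) →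
    ∃ N, ∀ l : List R, (∀ x ∈ l, x ∈ I) → l.length = N → l.prod ∈ B := by
  induction n with
  | zero =>
    intro I B hI hB h
    refine ⟨1, fun l hl hN => ?_⟩
    obtain ⟨x, rfl⟩ := List.length_eq_one_iff.mp hN
    have := h x (hl x (by simp))
    simpa using this
  | succ n ih =>
    intro I B hI hB h
    let Z : Set R := {b | ∀ y ∈ I, ∀ z ∈ I, b * y * z ^ (n + 1) ∈ B}
    have hZ : Idl Z := by
      refine ⟨?_, ?_, ?_, ?_⟩
      · intro y _ z _
        simpa using hB.zero
      · intro a b ha hb y hy z hz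
        rw [add_mul, add_mul]
        exact hB.add _ _ (ha y hy z hz) (hb y hy z hz)
      · intro d b hb y hy z hz
        rw [mul_assoc d, mul_assoc d]
        exact hB.left _ _ (hb y hy z hz)
      · intro b d hb y hy z hz
        rw [mul_assoc b]
        exact hb _ (hI.left _ _ hy) z hz
    have hZ1 : ∀ x ∈ I, x ^ (n + 1) ∈ Z := fun x hx y hy z hz => key hI hB h hx hy hz
    let Z' : Set R := {b | ∀ a ∈ Z, ∀ y ∈ I, a * y * b ∈ B}
    have hZ' : Idl Z' := by
      refine ⟨?_, ?_, ?_, ?_⟩
      · intro a _ y _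
        simpa using hB.zero
      · intro b c hb hc a ha y hy
        rw [mul_add]
        exact hB.add _ _ (hb a ha y hy) (hc a ha y hy)
      · intro d b hb a ha y hy
        have := hb a ha (y * d) (hI.right _ _ hy)
        simpa only [mul_assoc] using this
      · intro b d hb a ha y hy
        rw [← mul_assoc]
        exact hB.right _ _ (hb a ha y hy)
    have hZ'1 : ∀ x ∈ I, x ^ (n + 1) ∈ Z' := fun x hx a ha y hy => ha y hy x hx
    obtain ⟨N₁, h₁⟩ := ih I Z hI hZ hZ1
    obtain ⟨N₂, h₂⟩ := ih I Z' hI hZ' hZ'1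
    refine ⟨N₁ + 1 + N₂, fun l hl hN => ?_⟩
    have e1 : l = l.take N₁ ++ l.drop N₁ := (List.take_append_drop _ _).symm
    obtain ⟨y, l', hyl⟩ : ∃ y l', l.drop N₁ = y :: l' := by
      apply List.exists_cons_of_length_pos
      rw [List.length_drop]
      omega
    have hlen : l'.length = N₂ := by
      have := congrArg List.length hyl
      rw [List.length_drop, List.length_cons] at this
      omega
    have hy : y ∈ I := hl y (List.mem_of_mem_drop (hyl ▸ List.mem_cons_self))
    have hl' : ∀ x ∈ l', x ∈ I := fun x hx =>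
      hl x (List.mem_of_mem_drop (hyl ▸ List.mem_cons_of_mem _ hx))
    rw [e1, hyl, List.prod_append, List.prod_cons, ← mul_assoc]
    refine h₂ l' hl' hlen _ (h₁ _ (fun x hx => hl x (List.mem_of_mem_take hx)) ?_) y hy
    rw [List.length_take]
    omega

/-- The product `p y_1 p y_2 ⋯ p`. -/
def ch (p : R) : List R → R
  | [] => p
  | y :: l => p * y * ch p l

/-- `g` is killed by the products with `a` factors. -/
def Zc (I : Set R) (p : R) (a : ℕ) (g : R) : Prop :=
  ∀ (d : R) (l : List R), (∀ x ∈ l, x ∈ I) → l.length = a → g * d * ch p l = 0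

omit [Algebra ℚ R] in
theorem Zc.step {I : Set R} (hI : Idl I) {p : R} {a : ℕ} {g : R} (h : Zc I p (a + 1) g) {y : R}
    (hy : y ∈ I) : Zc I p a (g * p * y) := by
  intro d l hl hla
  have := h 1 (y * d :: l) (by
    intro x hx
    rcases List.mem_cons.mp hx with rfl | hx
    · exact hI.right _ _ hy
    · exact hl x hx) (by simp [hla])
  rw [ch, mul_one] at this
  rw [← this]
  simp only [mul_assoc]

omit [Algebra ℚ R] in
theorem Zc.mul {I : Set R} {p : R} {a : ℕ} {g : R} (h : Zc I p a g) (d : R) :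
    Zc I p a (g * d) := by
  intro d' l hl hla
  rw [mul_assoc g]
  exact h _ l hl hla

omit [Algebra ℚ R] in
/-- An ideal whose corners with respect to `p` and `q = 1 - p` are nilpotent is nilpotent. -/
theorem corner {I : Set R} (hI : Idl I) {p q : R} (hpq : p + q = 1) :
    ∀ (s a b : ℕ), a + b = s → ∃ K, ∀ g, Zc I p a g → Zc I q b g → ∀ l : List R, (∀ x ∈ l, x ∈ I) →
      l.length = K → g * l.prod = 0 := by
  intro s
  induction s with
  | zero =>
    intro a b hab
    obtain ⟨rfl, rfl⟩ : a = 0 ∧ b = 0 := by omega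
    refine ⟨0, fun g h1 h2 l hl hl0 => ?_⟩
    have e1 : g * 1 * p = 0 := h1 1 [] (by simp) rfl
    have e2 : g * 1 * q = 0 := h2 1 [] (by simp) rfl
    rw [mul_one] at e1 e2
    have : g = 0 := by
      calc g = g * (p + q) := by rw [hpq, mul_one]
        _ = 0 := by rw [mul_add, e1, e2, add_zero]
    rw [this, zero_mul]
  | succ s ih =>
    intro a b hab
    have main : ∃ K, ∀ g, Zc I p a g → Zc I q b g → ∀ (x : R) (l : List R), x ∈ I →
        (∀ x ∈ l, x ∈ I) → l.length = K → g * (x * l.prod) = 0 := by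
      have hp : ∃ K, ∀ g, Zc I p a g → Zc I q b g → ∀ (x : R) (l : List R), x ∈ I →
          (∀ x ∈ l, x ∈ I) → l.length = K → g * p * x * l.prod = 0 := by
        match a, hab with
        | 0, hab =>
          refine ⟨0, fun g h1 _ x l _ _ _ => ?_⟩
          have e1 : g * 1 * p = 0 := h1 1 [] (by simp) rfl
          rw [mul_one] at e1
          rw [e1, zero_mul, zero_mul]
        | a + 1, hab =>
          obtain ⟨K, hK⟩ := ih a b (by omega)
          refine ⟨K, fun g h1 h2 x l hx hl hl' => ?_⟩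
          refine hK _ (h1.step hI hx) ?_ l hl hl'
          rw [mul_assoc]
          exact h2.mul _
      have hq : ∃ K, ∀ g, Zc I p a g → Zc I q b g → ∀ (x : R) (l : List R), x ∈ I →
          (∀ x ∈ l, x ∈ I) → l.length = K → g * q * x * l.prod = 0 := by
        match b, hab with
        | 0, hab =>
          refine ⟨0, fun g _ h2 x l _ _ _ => ?_⟩
          have e1 : g * 1 * q = 0 := h2 1 [] (by simp) rfl
          rw [mul_one] at e1
          rw [e1, zero_mul, zero_mul]
        | b + 1, hab =>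
          obtain ⟨K, hK⟩ := ih a b (by omega)
          refine ⟨K, fun g h1 h2 x l hx hl hl' => ?_⟩
          refine hK _ ?_ (h2.step hI hx) l hl hl'
          rw [mul_assoc]
          exact h1.mul _
      obtain ⟨K₁, h₁⟩ := hp
      obtain ⟨K₂, h₂⟩ := hq
      have ext : ∀ (K M : ℕ) (c : R), (∀ l : List R, (∀ x ∈ l, x ∈ I) → l.length = K →
          c * l.prod = 0) → ∀ l : List R, (∀ x ∈ l, x ∈ I) → l.length = K + M → c * l.prod = 0 := by
        intro K M c h l hl hlen
        rw [← List.take_append_drop K l, List.prod_append, ← mul_assoc,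
          h _ (fun x hx => hl x (List.mem_of_mem_take hx)) (by rw [List.length_take]; omega),
          zero_mul]
      refine ⟨K₁ + K₂, fun g h1 h2 x l hx hl hlen => ?_⟩
      have e1 := ext K₁ K₂ (g * p * x) (fun l hl hl' => h₁ g h1 h2 x l hx hl hl') l hl hlen
      have e2 := ext K₂ K₁ (g * q * x) (fun l hl hl' => h₂ g h1 h2 x l hx hl hl') l hl
        (by omega)
      calc g * (x * l.prod) = g * (p + q) * x * l.prod := by
            rw [hpq, mul_one, mul_assoc]
        _ = g * p * x * l.prod + g * q * x * l.prod := by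
            rw [mul_add, add_mul, add_mul]
        _ = 0 := by rw [e1, e2, add_zero]
    obtain ⟨K, hK⟩ := main
    refine ⟨K + 1, fun g h1 h2 l hl hlen => ?_⟩
    match l, hlen with
    | x :: l, hlen =>
      rw [List.prod_cons]
      exact hK g h1 h2 x l (hl x List.mem_cons_self)
        (fun y hy => hl y (List.mem_cons_of_mem _ hy)) (by simpa using hlen)

end Pool.Agent.TH90.Kim
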