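import Pool.Agent.TH90.Kim.Ten

/-!
# Tensor powers of a tensor product
-/

open CategoryTheory MonoidalCategory Limits BraidedCategory

universe u v

namespace Pool.Agent.TH90.Kim

open Pool.Agent.TH90.AB

set_option linter.unusedSectionVars false

noncomputable section

variable {𝒜 : Type u} [Category.{v} 𝒜] [MonoidalCategory 𝒜] [SymmetricCategory 𝒜]

lemma braid_μ (A B : 𝒜) : (β_ (A ⊗ B) (A ⊗ B)).hom ≫ tensorμ A B A B =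
    tensorμ A B A B ≫ ((β_ A A).hom ⊗ₘ (β_ B B).hom) := by
  have h : tensorμ A B A B = tensorδ A A B B := by
    simp [tensorμ, tensorδ, SymmetricCategory.braiding_swap_eq_inv_braiding A B]
  have h1 := SymmetricCategory.tensorμ_braid_swap A B
  rw [h]
  calc (β_ (A ⊗ B) (A ⊗ B)).hom ≫ tensorδ A A B B = tensorδ A A B B ≫ (tensorμ A A B B ≫
      (β_ (A ⊗ B) (A ⊗ B)).hom) ≫ tensorδ A A B B := by
        rw [Category.assoc, ← Category.assoc (tensorδ A A B B), tensorδ_tensorμ, Category.id_comp]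
    _ = _ := by
        rw [h1, Category.assoc, tensorμ_tensorδ, Category.comp_id]

/-- The shuffle of the factors. -/
def sh (A B : 𝒜) : ∀ n, T (A ⊗ B) n ⟶ T A n ⊗ T B n
  | 0 => (λ_ (𝟙_ 𝒜)).inv
  | n + 1 => sh A B n ▷ (A ⊗ B) ≫ tensorμ (T A n) (T B n) A B

/-- The inverse of the shuffle. -/
def shi (A B : 𝒜) : ∀ n, T A n ⊗ T B n ⟶ T (A ⊗ B) n
  | 0 => (λ_ (𝟙_ 𝒜)).hom
  | n + 1 => tensorδ (T A n) (T B n) A B ≫ shi A B n ▷ (A ⊗ B)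

lemma shi_sh (A B : 𝒜) (n : ℕ) : shi A B n ≫ sh A B n = 𝟙 _ := by
  induction n with
  | zero => simp [sh, shi]
  | succ n ih =>
    simp only [sh, shi, Category.assoc]
    rw [← comp_whiskerRight_assoc, ih, id_whiskerRight, Category.id_comp, tensorδ_tensorμ]

lemma sh_last (A B : 𝒜) (n : ℕ) : sw (T (A ⊗ B) n) (A ⊗ B) ≫ sh A B (n + 2) =
    sh A B (n + 2) ≫ (sw (T A n) A ⊗ₘ sw (T B n) B) := by
  let Φ := tensorμ (T A n) (T B n) A B ▷ (A ⊗ B) ≫ tensorμ (T A n ⊗ A) (T B n ⊗ B) A B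
  have e1 : sh A B (n + 2) = ((sh A B n) ▷ (A ⊗ B)) ▷ (A ⊗ B) ≫ Φ := by
    simp only [sh, comp_whiskerRight, Category.assoc, Φ]
  have e2 : Φ = (α_ (T A n ⊗ T B n) (A ⊗ B) (A ⊗ B)).hom ≫
      (T A n ⊗ T B n) ◁ tensorμ A B A B ≫ tensorμ (T A n) (T B n) (A ⊗ A) (B ⊗ B) ≫
        ((α_ (T A n) A A).inv ⊗ₘ (α_ (T B n) B B).inv) := by
    have := tensor_associativity (T A n) (T B n) A B A B
    rw [← Category.assoc] at this
    rw [← reassoc_of% this]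
    simp [Φ]
  have e3 : sw (T A n ⊗ T B n) (A ⊗ B) ≫ Φ = Φ ≫ (sw (T A n) A ⊗ₘ sw (T B n) B) := by
    have h1 : ((α_ (T A n) A A).inv ⊗ₘ (α_ (T B n) B B).inv) ≫
        (sw (T A n) A ⊗ₘ sw (T B n) B) = (T A n ◁ (β_ A A).hom ⊗ₘ T B n ◁ (β_ B B).hom) ≫
          ((α_ (T A n) A A).inv ⊗ₘ (α_ (T B n) B B).inv) := by
      simp [sw]
    rw [e2]
    simp only [Category.assoc]
    rw [h1, ← tensorμ_natural_right_assoc, ← whiskerLeft_comp_assoc, ← braid_μ]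
    simp only [sw, Category.assoc, Iso.inv_hom_id_assoc, MonoidalCategory.whiskerLeft_comp]
  rw [e1, Category.assoc, ← e3, sw_natural_assoc]

lemma sh_adj (A B : 𝒜) (n : ℕ) (s : T (A ⊗ B) n ⟶ T (A ⊗ B) n) (hs : Adj (A ⊗ B) n s) :
    ∃ (s₁ : T A n ⟶ T A n) (s₂ : T B n ⟶ T B n), Adj A n s₁ ∧ Adj B n s₂ ∧
      s ≫ sh A B n = sh A B n ≫ (s₁ ⊗ₘ s₂) := by
  induction hs with
  | last n => exact ⟨_, _, Adj.last n, Adj.last n, sh_last A B n⟩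
  | whisker n s hs ih =>
    obtain ⟨s₁, s₂, h1, h2, h3⟩ := ih
    refine ⟨_, _, Adj.whisker _ s₁ h1, Adj.whisker _ s₂ h2, ?_⟩
    simp only [sh, Category.assoc]
    rw [← comp_whiskerRight_assoc, h3, comp_whiskerRight_assoc, tensorμ_natural_left]

section linear

variable [Preadditive 𝒜] [MonoidalPreadditive 𝒜] [Linear ℚ 𝒜] [MonoidalLinear ℚ 𝒜]

lemma smul_tensor {X Y Z W : 𝒜} (c : ℚ) (f : X ⟶ Y) (g : Z ⟶ W) : (c • f) ⊗ₘ g = c • (f ⊗ₘ g) := by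
  simp [MonoidalCategory.tensorHom_def]

lemma tensor_smul {X Y Z W : 𝒜} (c : ℚ) (f : X ⟶ Y) (g : Z ⟶ W) : f ⊗ₘ (c • g) = c • (f ⊗ₘ g) := by
  simp [MonoidalCategory.tensorHom_def]

lemma Signed.tensor {ε₁ ε₂ : ℚ} {A B Y Z : 𝒜} {n : ℕ} {g : T A n ⟶ Y} {h : T B n ⟶ Z}
    (hg : Signed ε₁ g) (hh : Signed ε₂ h) : Signed (ε₁ * ε₂) (sh A B n ≫ (g ⊗ₘ h)) := by
  intro s hs
  obtain ⟨s₁, s₂, h1, h2, h3⟩ := sh_adj A B n s hs
  rw [reassoc_of% h3, tensorHom_comp_tensorHom, hg s₁ h1, hh s₂ h2, smul_tensor, tensor_smul,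
    smul_smul, Linear.comp_smul]

variable [hdual : ∀ X : 𝒜, HasRightDual X]

lemma tensor_descend {ε χ : ℚ} (hε : ε * ε = 1) {B : 𝒜} (h : tr (𝟙 B) = χ • 𝟙 (𝟙_ 𝒜)) {X Y : 𝒜}
    (g : X ⟶ Y) (n : ℕ) (hn : χ + ε * n ≠ 0) (h0 : g ⊗ₘ sy ε B (n + 1) = 0) :
    g ⊗ₘ sy ε B n = 0 := by
  have e1 : (α_ X (T B n) B).hom ≫ (g ⊗ₘ sy ε B (n + 1)) ≫ (α_ Y (T B n) B).inv =
      ((α_ X (T B n) B).hom ≫ X ◁ sy ε B (n + 1) ≫ (α_ X (T B n) B).inv) ≫ (g ▷ T B n) ▷ B := by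
    rw [tensorHom_def']
    simp
  have e2 : ptr ((α_ X (T B n) B).hom ≫ (g ⊗ₘ sy ε B (n + 1)) ≫ (α_ Y (T B n) B).inv) =
      ((χ + ε * n) / (n + 1)) • (g ⊗ₘ sy ε B n) := by
    rw [e1, ptr_right, ptr_super, ptr_sy hε h, MonoidalLinear.whiskerLeft_smul, Linear.smul_comp,
      tensorHom_def']
  rw [h0, zero_comp, comp_zero, ptr_zero] at e2
  have hc : ((χ + ε * n) / (n + 1)) ≠ 0 := div_ne_zero hn (by positivity)
  exact ((smul_eq_zero_iff_right hc).mp e2.symm)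

lemma tensor_sy_cancel {ε χ : ℚ} (hε : ε * ε = 1) {B : 𝒜} (h : tr (𝟙 B) = χ • 𝟙 (𝟙_ 𝒜)) {X Y : 𝒜}
    (g : X ⟶ Y) (n : ℕ) (hn : ∀ k < n, χ + ε * k ≠ 0) (h0 : g ⊗ₘ sy ε B n = 0) : g = 0 := by
  induction n with
  | zero =>
    have h1 : g ▷ 𝟙_ 𝒜 = 0 := by simpa [sy] using h0
    have h2 : g = (ρ_ X).inv ≫ g ▷ 𝟙_ 𝒜 ≫ (ρ_ Y).hom := by simp
    rw [h2, h1, zero_comp, comp_zero]
  | succ n ih =>
    exact ih (fun k hk => hn k (by omega)) (tensor_descend hε h g n (hn n (by omega)) h0)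

/-- If a power of `A ⊗ B` is zero, and the dimension of `B` is suitable, then a power of `A` is
zero. -/
lemma PowZero.cancel {ε₁ ε₂ χ : ℚ} (h2 : ε₂ * ε₂ = 1) {A B : 𝒜} {n : ℕ}
    (hP : PowZero (ε₁ * ε₂) (A ⊗ B) n) (h : tr (𝟙 B) = χ • 𝟙 (𝟙_ 𝒜))
    (hn : ∀ k < n, χ + ε₂ * k ≠ 0) : PowZero ε₁ A n := by
  intro Y g hg
  have h1 := hP _ _ (hg.tensor (signed_sy h2 B n))
  have h3 : g ⊗ₘ sy ε₂ B n = 0 := by
    rw [← Category.id_comp (g ⊗ₘ sy ε₂ B n), ← shi_sh, Category.assoc, h1, comp_zero]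
  exact tensor_sy_cancel h2 h g n hn h3

end linear

end

end Pool.Agent.TH90.Kim
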