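import Pool.Agent.TH90.Kim.Real
import Pool.Agent.TH90.Kim.Shuf
import Pool.Agent.TH90.Kim.NH
import Mathlib.RingTheory.Idempotents
import Mathlib.CategoryTheory.Idempotents.Basic

/-!
# Traces and realisations
-/

open CategoryTheory MonoidalCategory Limits BraidedCategory

universe u v w

namespace Pool.Agent.TH90.Kim

open Pool.Agent.TH90.AB

set_option linter.unusedSectionVars false

noncomputable section

variable {𝒜 : Type u} [Category.{v} 𝒜] [MonoidalCategory 𝒜] [SymmetricCategory 𝒜]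
  [Preadditive 𝒜] [MonoidalPreadditive 𝒜] [Linear ℚ 𝒜] [MonoidalLinear ℚ 𝒜]
  {K : Type w} [Field K] [CharZero K] (F : Realisation 𝒜 K)

namespace Realisation

section trace

variable [hdual : ∀ X : 𝒜, HasRightDual X]

/-- The partial trace of an endomorphism which acts as parity. -/
lemma map_ptr_par {M N : 𝒜} {σ : M ⊗ N ⟶ M ⊗ N} (hσ : ∀ z, F.map σ z = F.par _ z)
    (x : F.V M) : F.map (ptr σ) x = (Module.finrank K (F.V N) : K) • F.par M x := by
  obtain ⟨n, a, b, h⟩ := F.exists_sum (F.map (η_ N Nᘁ) F.one)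
  have e1 : F.map (ρ_ M).inv x = F.ext x F.one := F.map_inv _ (F.right_unit x)
  simp only [ptr, F.map_comp]
  rw [e1, F.whiskerLeft, h]
  simp only [map_sum, F.assoc_inv, F.whiskerRight, hσ, F.par_ext, F.assoc, F.whiskerLeft]
  rw [← map_sum, ← map_sum, F.contract_par N a b h, _root_.map_smul, _root_.map_smul,
    F.right_unit]

lemma map_tr {M : 𝒜} (g : M ⟶ M) {n : ℕ} (a : Fin n → F.V M) (b : Fin n → F.V Mᘁ)
    (h : F.map (η_ M Mᘁ) F.one = ∑ i, F.ext (a i) (b i)) :
    F.map (tr g) F.one = ∑ i, F.map (ev M) (F.ext (F.map g (a i)) (b i)) := by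
  rw [tr_eq]
  simp only [F.map_comp]
  rw [h]
  simp only [map_sum, F.whiskerRight]

/-- The trace of an endomorphism which is parity up to a factor. -/
lemma map_tr_par {M : 𝒜} {g : M ⟶ M} {c : K} (hg : ∀ x, F.map g x = c • F.par M x) :
    F.map (tr g) F.one = (c * (Module.finrank K (F.V M) : K)) • F.one := by
  obtain ⟨n, a, b, h⟩ := F.exists_sum (F.map (η_ M Mᘁ) F.one)
  rw [F.map_tr g a b h]
  simp only [hg, _root_.map_smul, LinearMap.smul_apply]
  rw [← Finset.smul_sum, F.contract_par M a b h, smul_smul]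

lemma unit_inj {q : ℚ} {c : K} {f : 𝟙_ 𝒜 ⟶ 𝟙_ 𝒜} (hf : f = q • 𝟙 (𝟙_ 𝒜))
    (h : F.map f F.one = c • F.one) : (q : K) = c := by
  rw [hf, F.map_smul, F.map_id] at h
  exact smul_left_injective K F.one_ne h

variable (hunit : ∀ f : 𝟙_ 𝒜 ⟶ 𝟙_ 𝒜, ∃ q : ℚ, f = q • 𝟙 (𝟙_ 𝒜))

include hunit

lemma tr_inv {M : 𝒜} {g : M ⟶ M} (hg : F.Inv g) : tr g = 0 := by
  obtain ⟨q, hq⟩ := hunit (tr g)
  have h : F.map (tr g) F.one = (0 : K) • F.one := by
    have := F.map_tr_par (g := g) (c := 0) (fun x => by rw [hg x, zero_smul])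
    rwa [zero_mul] at this
  have h1 := F.unit_inj hq h
  rw [hq]
  have : q = 0 := by exact_mod_cast h1
  rw [this, zero_smul]

lemma tr_scalar {M : 𝒜} {δ : ℚ} (hδ : δ * δ = 1) (hM : ∀ x, F.par M x = (δ : K) • x) :
    tr (𝟙 M) = (δ * (Module.finrank K (F.V M) : ℚ)) • 𝟙 (𝟙_ 𝒜) := by
  obtain ⟨q, hq⟩ := hunit (tr (𝟙 M))
  have hδ' : (δ : K) * (δ : K) = 1 := by rw [← Rat.cast_mul, hδ, Rat.cast_one]
  have h := F.map_tr_par (g := 𝟙 M) (c := (δ : K)) (fun x => by
    rw [F.map_id, hM, smul_smul, hδ', one_smul])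
  have h1 := F.unit_inj hq h
  rw [hq]
  congr 1
  have h2 : ((q : ℚ) : K) = ((δ * (Module.finrank K (F.V M) : ℚ) : ℚ) : K) := by
    rw [h1]
    push_cast
    ring
  exact_mod_cast h2

end trace

section ideal

/-- The ideal of invisible endomorphisms. -/
def I (P : 𝒜) : Set (End P) := {f | F.Inv (show P ⟶ P from f)}

lemma inv_comp_left {X Y Z : 𝒜} {f : X ⟶ Y} (g : Y ⟶ Z) (h : F.Inv f) : F.Inv (f ≫ g) := by
  intro x
  rw [F.map_comp, h, _root_.map_zero]

lemma inv_comp_right {X Y Z : 𝒜} (f : X ⟶ Y) {g : Y ⟶ Z} (h : F.Inv g) : F.Inv (f ≫ g) := by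
  intro x
  rw [F.map_comp, h]

lemma inv_zero {X Y : 𝒜} : F.Inv (0 : X ⟶ Y) := fun x => F.map_zero' x

lemma idl (P : 𝒜) : Idl (F.I P) where
  zero := F.inv_zero
  add := by
    intro x y hx hy v
    have : F.map (show P ⟶ P from x + y) v = F.map (show P ⟶ P from x) v +
        F.map (show P ⟶ P from y) v := F.map_add _ _ v
    rw [this, hx v, hy v, add_zero]
  left := fun d x hx => F.inv_comp_left (show P ⟶ P from d) hx
  right := fun x d hx => F.inv_comp_right (show P ⟶ P from d) hx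

lemma inv_pw {P : 𝒜} {f : P ⟶ P} (hf : F.Inv f) (k : ℕ) : F.Inv (pw f (k + 1)) := by
  have h : (show End P from f) ^ (k + 1) ∈ F.I P := (F.idl P).pow hf (Nat.succ_pos k)
  exact h

variable [hdual : ∀ X : 𝒜, HasRightDual X]
  (hunit : ∀ f : 𝟙_ 𝒜 ⟶ 𝟙_ 𝒜, ∃ q : ℚ, f = q • 𝟙 (𝟙_ 𝒜))

include hunit

/-- The ideal of invisible endomorphisms of an object with a vanishing power is nilpotent. -/
lemma nilp_of_powZero {ε : ℚ} (hε : ε * ε = 1) {P : 𝒜} {n : ℕ} (hP : PowZero ε P n) :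
    ∃ N, ∀ l : List (End P), (∀ x ∈ l, x ∈ F.I P) → l.length = N → l.prod = 0 := by
  match n with
  | 0 =>
    exfalso
    have h := hP (𝟙_ 𝒜) (𝟙 _) (by intro s hs; cases hs)
    have h1 := F.map_id (𝟙_ 𝒜) F.one
    rw [show (𝟙 (𝟙_ 𝒜)) = 0 from h, F.map_zero'] at h1
    exact F.one_ne h1.symm
  | m + 1 =>
    obtain ⟨N, hN⟩ := nh (R := End P) m (F.I P) {0} (F.idl P)
      { zero := rfl
        add := by
          intro x y hx hy
          rw [Set.mem_singleton_iff] at *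
          rw [hx, hy, add_zero]
        left := by
          intro d x hx
          rw [Set.mem_singleton_iff] at *
          rw [hx, mul_zero]
        right := by
          intro d x hx
          rw [Set.mem_singleton_iff] at *
          rw [hx, zero_mul] }
      (fun x hx => pw_eq_zero hε hP (f := x) (fun k => F.tr_inv hunit (F.inv_pw hx k)))
    exact ⟨N, fun l hl hlN => hN l hl hlN⟩

end ideal

end Realisation

end

end Pool.Agent.TH90.Kim
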