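import Pool.Agent.TH90.Kim.Main1

/-!
# Tensor factors of Kimura-finite objects
-/

open CategoryTheory MonoidalCategory Limits BraidedCategory

universe u v w

namespace Pool.Agent.TH90.Kim

open Pool.Agent.TH90.AB

set_option linter.unusedSectionVars false

noncomputable section

variable {𝒜 : Type u} [Category.{v} 𝒜] [MonoidalCategory 𝒜] [SymmetricCategory 𝒜]
  [Preadditive 𝒜] [MonoidalPreadditive 𝒜] [Linear ℚ 𝒜] [MonoidalLinear ℚ 𝒜]

lemma KimuraFinite.of_iso {M M' : 𝒜} (h : KimuraFinite M) (e : M ≅ M') : KimuraFinite M' := by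
  obtain ⟨P, Q, ⟨S⟩, hP, hQ⟩ := h
  refine ⟨P, Q, ⟨{
    i := S.i ≫ e.hom
    r := e.inv ≫ S.r
    j := S.j ≫ e.hom
    s := e.inv ≫ S.s
    ir := by simp [S.ir]
    js := by simp [S.js]
    sum := ?_ }⟩, hP, hQ⟩
  have h1 : (e.inv ≫ S.r) ≫ S.i ≫ e.hom + (e.inv ≫ S.s) ≫ S.j ≫ e.hom =
      e.inv ≫ (S.r ≫ S.i + S.s ≫ S.j) ≫ e.hom := by
    simp only [Preadditive.add_comp, Preadditive.comp_add, Category.assoc]
  rw [h1, S.sum]
  simp

/-- The corner of the products. -/
lemma ch_eq {X P : 𝒜} (i : P ⟶ X) (r : X ⟶ P) (l : List (End X)) :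
    (show X ⟶ X from ch (R := End X) (r ≫ i) l) =
      r ≫ (show P ⟶ P from (l.map (fun y : End X => (show End P from i ≫ y ≫ r))).prod) ≫ i := by
  induction l with
  | nil =>
    simp only [ch, List.map_nil, List.prod_nil]
    change r ≫ i = r ≫ 𝟙 P ≫ i
    rw [Category.id_comp]
  | cons y l ih =>
    simp only [ch, List.map_cons, List.prod_cons]
    change (show X ⟶ X from ch (R := End X) (r ≫ i) l) ≫ y ≫ (r ≫ i) =
      r ≫ ((show P ⟶ P from (l.map (fun y : End X => (show End P from i ≫ y ≫ r))).prod) ≫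
        (i ≫ y ≫ r)) ≫ i
    rw [ih]
    simp only [Category.assoc]

variable {K : Type w} [Field K] [CharZero K] (F : Realisation 𝒜 K)

namespace Realisation

/-- The parity of a retract. -/
lemma par_retract {Y P : 𝒜} {δ : K} (a : Y ⟶ P) (b : P ⟶ Y) (hab : a ≫ b = 𝟙 Y)
    (hP : ∀ x, F.par P x = δ • x) (y : F.V Y) : F.par Y y = δ • y := by
  have h1 := F.par_map b (F.map a y)
  rw [hP, _root_.map_smul, ← F.map_comp, hab, F.map_id] at h1
  exact h1

/-- The object has a decomposition in an even and an odd part. -/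
structure EO (M P Q : 𝒜) where
  S : Split M P Q
  even : ∀ x, F.par P x = x
  odd : ∀ x, F.par Q x = -x

variable {F}

/-- The parity is algebraic. -/
lemma EO.map_sigma {M P Q : 𝒜} (E : F.EO M P Q) (z : F.V M) :
    F.map (E.S.r ≫ E.S.i - E.S.s ≫ E.S.j) z = F.par M z := by
  have h1 : z = F.map (E.S.r ≫ E.S.i) z + F.map (E.S.s ≫ E.S.j) z := by
    rw [← F.map_add, E.S.sum, F.map_id]
  conv_rhs => rw [h1]
  rw [_root_.map_add, F.par_map, F.par_map, F.map_sub', F.map_comp, F.map_comp, F.map_comp,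
    F.map_comp, ← F.par_map E.S.r, ← F.par_map E.S.s, E.even, E.odd, _root_.map_neg,
    sub_eq_add_neg]

variable (F)

/-- The parities of the parts of a Kimura-finite object. -/
def eo_of_powZero {M P Q : 𝒜} (S : Split M P Q) {n m : ℕ} (hP : PowZero (-1) P n)
    (hQ : PowZero 1 Q m) : F.EO M P Q where
  S := S
  even := by
    intro x
    have := par_of_powZero (F := F) (Or.inr rfl) hP x
    rw [this]
    simp
  odd := by
    intro x
    have := par_of_powZero (F := F) (Or.inl rfl) hQ x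
    rw [this]
    simp

variable [hdual : ∀ X : 𝒜, HasRightDual X]
  (hunit : ∀ f : 𝟙_ 𝒜 ⟶ 𝟙_ 𝒜, ∃ q : ℚ, f = q • 𝟙 (𝟙_ 𝒜))

include hunit

/-- The ideal of invisible endomorphisms of a Kimura-finite object is nilpotent. -/
lemma nilp {X : 𝒜} (hX : KimuraFinite X) :
    ∃ N, ∀ l : List (End X), (∀ x ∈ l, x ∈ F.I X) → l.length = N → l.prod = 0 := by
  obtain ⟨P, Q, ⟨S⟩, ⟨n, hP⟩, ⟨m, hQ⟩⟩ := hX
  have half : ∀ {P : 𝒜} (i : P ⟶ X) (r : X ⟶ P) {ε : ℚ} {n : ℕ}, ε * ε = 1 → PowZero ε P n →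
      ∃ a, Zc (R := End X) (F.I X) (r ≫ i) a 1 := by
    intro P i r ε n hε hP
    obtain ⟨a, ha⟩ := F.nilp_of_powZero hunit hε hP
    refine ⟨a, fun d l hl hla => ?_⟩
    have h1 : (l.map (fun y : End X => (show End P from i ≫ y ≫ r))).prod = 0 := by
      apply ha
      · intro x hx
        obtain ⟨y, hy, rfl⟩ := List.mem_map.mp hx
        exact F.inv_comp_right _ (F.inv_comp_left _ (hl y hy))
      · rw [List.length_map, hla]
    have h2 := ch_eq i r l
    have h3 : ch (R := End X) (r ≫ i) l = 0 := by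
      refine h2.trans ?_
      rw [h1]
      change r ≫ (0 : P ⟶ P) ≫ i = 0
      rw [zero_comp, comp_zero]
    rw [h3, mul_zero]
  obtain ⟨a, ha⟩ := half S.i S.r (by norm_num) hP
  obtain ⟨b, hb⟩ := half S.j S.s (by norm_num) hQ
  obtain ⟨N, hN⟩ := corner (F.idl X) (p := (show End X from S.r ≫ S.i))
    (q := (show End X from S.s ≫ S.j)) S.sum (a + b) a b rfl
  refine ⟨N, fun l hl hlN => ?_⟩
  have := hN 1 ha hb l hl hlN
  rwa [one_mul] at this

/-- A uniform bound for the nilpotence of the invisible endomorphisms of retracts. -/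
lemma pw_retract {X Y : 𝒜} {N : ℕ}
    (hN : ∀ l : List (End X), (∀ x ∈ l, x ∈ F.I X) → l.length = N → l.prod = 0)
    (k : Y ⟶ X) (l : X ⟶ Y) (hkl : k ≫ l = 𝟙 Y) {d : Y ⟶ Y} (hd : F.Inv d) :
    pw d N = 0 := by
  have h1 : ∀ n, l ≫ pw d n ≫ k = (l ≫ k) ≫ pw (l ≫ d ≫ k) n := by
    intro n
    induction n with
    | zero =>
      change l ≫ 𝟙 Y ≫ k = (l ≫ k) ≫ 𝟙 X
      simp
    | succ n ih =>
      have e1 : pw d (n + 1) = d ≫ pw d n := by
        have := pw_add d 1 n
        rw [← this]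
        congr 1
        unfold pw
        exact pow_one (show End Y from d)
      have e2 : pw (l ≫ d ≫ k) (n + 1) = (l ≫ d ≫ k) ≫ pw (l ≫ d ≫ k) n := by
        have := pw_add (l ≫ d ≫ k) 1 n
        rw [← this]
        congr 1
        unfold pw
        exact pow_one (show End X from (l ≫ d ≫ k))
      rw [e1, e2]
      simp only [Category.assoc]
      have e3 : pw d n ≫ k = k ≫ pw (l ≫ d ≫ k) n := by
        have := congrArg (fun f => k ≫ f) ih
        simp only [← Category.assoc, hkl, Category.id_comp] at this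
        simpa only [← Category.assoc] using this
      rw [e3, ← Category.assoc k l, hkl, Category.id_comp]
  have h2 : pw (l ≫ d ≫ k) N = 0 := by
    have := hN (List.replicate N (show End X from l ≫ d ≫ k)) (by
      intro x hx
      rw [List.eq_of_mem_replicate hx]
      exact F.inv_comp_right _ (F.inv_comp_left _ hd)) (List.length_replicate)
    rw [List.prod_replicate] at this
    exact this
  have h3 := h1 N
  rw [h2, comp_zero] at h3
  have h4 : k ≫ (l ≫ pw d N ≫ k) ≫ l = pw d N := by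
    simp only [Category.assoc, hkl, Category.comp_id]
    rw [← Category.assoc, hkl, Category.id_comp]
  rw [← h4, h3, zero_comp, comp_zero]

end Realisation

end

end Pool.Agent.TH90.Kim
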