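import Pool.Agent.TH90.Kim.Main2

/-!
# Tensor factors of Kimura-finite objects, continued
-/

open CategoryTheory MonoidalCategory Limits BraidedCategory

universe u v w

namespace Pool.Agent.TH90.Kim

open Pool.Agent.TH90.AB

set_option linter.unusedSectionVars false

noncomputable section

variable {𝒜 : Type u} [Category.{v} 𝒜] [MonoidalCategory 𝒜] [SymmetricCategory 𝒜]
  [Preadditive 𝒜] [MonoidalPreadditive 𝒜] [Linear ℚ 𝒜] [MonoidalLinear ℚ 𝒜]

/-- The other order. -/
def Split.swap {M P Q : 𝒜} (S : Split M P Q) : Split M Q P where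
  i := S.j
  r := S.s
  j := S.i
  s := S.r
  ir := S.js
  js := S.ir
  sum := by rw [add_comm, S.sum]

lemma pw_succ {P : 𝒜} (f : P ⟶ P) (n : ℕ) : pw f (n + 1) = f ≫ pw f n := by
  have := pw_add f 1 n
  rw [← this]
  congr 1
  unfold pw
  exact pow_one (show End P from f)

lemma pw_zero {P : 𝒜} (f : P ⟶ P) : pw f 0 = 𝟙 P := by
  unfold pw
  exact pow_zero (show End P from f)

lemma pw_whiskerRight {M : 𝒜} (f : M ⟶ M) (N : 𝒜) (n : ℕ) : pw (f ▷ N) n = pw f n ▷ N := by
  induction n with
  | zero => rw [pw_zero, pw_zero, id_whiskerRight]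
  | succ n ih => rw [pw_succ, pw_succ, comp_whiskerRight, ih]

variable {K : Type w} [Field K] [CharZero K]

lemma half_even {V : Type*} [AddCommGroup V] [Module K V] {y z : V}
    (h : (2 : K)⁻¹ • (y + z) = y) : z = y := by
  have h1 := congrArg (fun v => (2 : K) • v) h
  simp only [smul_smul] at h1
  rw [mul_inv_cancel₀ two_ne_zero, one_smul, two_smul] at h1
  exact add_left_cancel h1

lemma half_odd {V : Type*} [AddCommGroup V] [Module K V] {y z : V}
    (h : y - (2 : K)⁻¹ • (y + z) = y) : z = -y := by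
  have h1 : (2 : K)⁻¹ • (y + z) = 0 := by simpa using h
  have h2 : y + z = 0 := (smul_eq_zero.mp h1).resolve_left (inv_ne_zero two_ne_zero)
  exact (neg_eq_of_add_eq_zero_right h2).symm

variable (F : Realisation 𝒜 K)

namespace Realisation

lemma finrank_ne {M : 𝒜} (hM : ∃ x : F.V M, x ≠ 0) : Module.finrank K (F.V M) ≠ 0 := by
  have : 0 < Module.finrank K (F.V M) := Module.finrank_pos_iff_exists_ne_zero.mpr hM
  omega

/-- The action of the endomorphisms on the realisation. -/
def toEnd (M : 𝒜) : End M →+* Module.End K (F.V M) where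
  toFun f := F.map (show M ⟶ M from f)
  map_one' := LinearMap.ext (F.map_id M)
  map_mul' f g := LinearMap.ext (fun x => F.map_comp (show M ⟶ M from g) (show M ⟶ M from f) x)
  map_zero' := LinearMap.ext (fun x => F.map_zero' x)
  map_add' f g := LinearMap.ext (fun x => F.map_add (show M ⟶ M from f) (show M ⟶ M from g) x)

/-- Lifting of the projectors on the even and the odd part. -/
lemma exists_eo [IsIdempotentComplete 𝒜] {M : 𝒜}
    (hnil : ∀ f : M ⟶ M, F.Inv f → ∃ n, pw f n = 0) {g : M ⟶ M} {c : ℚ} (hc : c ≠ 0)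
    (hg : ∀ x, F.map g x = (c : K) • F.par M x) : ∃ P Q, Nonempty (F.EO M P Q) := by
  have two : ((2 : K)) ≠ 0 := two_ne_zero
  have hcK : (c : K) ≠ 0 := by exact_mod_cast hc
  let e : Module.End K (F.V M) := (2 : K)⁻¹ • (LinearMap.id + F.par M)
  have he : ∀ x, e x = (2 : K)⁻¹ • (x + F.par M x) := fun x => rfl
  have hidem : IsIdempotentElem e := by
    refine LinearMap.ext fun x => ?_
    change e (e x) = e x
    rw [he (e x), he x, _root_.map_smul, _root_.map_add, F.par_par, add_comm (F.par M x) x,
      ← two_smul K ((2 : K)⁻¹ • (x + F.par M x)), smul_smul, inv_mul_cancel₀ two, one_smul]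
  have hrange : e ∈ (F.toEnd M).range := by
    refine ⟨(show End M from (2 : ℚ)⁻¹ • (𝟙 M + c⁻¹ • g)), LinearMap.ext fun x => ?_⟩
    change F.map ((2 : ℚ)⁻¹ • (𝟙 M + c⁻¹ • g)) x = e x
    rw [he, F.map_smul, F.map_add, F.map_id, F.map_smul, hg, smul_smul]
    have : ((c⁻¹ : ℚ) : K) * (c : K) = 1 := by
      rw [← Rat.cast_mul, inv_mul_cancel₀ hc, Rat.cast_one]
    rw [this, one_smul]
    norm_num
  obtain ⟨e', h1, h2⟩ := exists_isIdempotentElem_eq_of_ker_isNilpotent (F.toEnd M)
    (by
      intro x hx
      have hx' : F.Inv (show M ⟶ M from x) := fun v => by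
        have := LinearMap.congr_fun (RingHom.mem_ker.mp hx) v
        exact this
      obtain ⟨n, hn⟩ := hnil _ hx'
      exact ⟨n, hn⟩) e hrange hidem
  have h2' : ∀ x, F.map (show M ⟶ M from e') x = (2 : K)⁻¹ • (x + F.par M x) := fun x =>
    (LinearMap.congr_fun h2 x).trans (he x)
  obtain ⟨P, i, r, hir, hri⟩ := IsIdempotentComplete.idempotents_split M (show M ⟶ M from e') h1
  obtain ⟨Q, j, s, hjs, hsj⟩ := IsIdempotentComplete.idempotents_split M
    (show M ⟶ M from (1 - e' : End M)) (IsIdempotentElem.one_sub h1)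
  refine ⟨P, Q, ⟨{
    S := {
      i := i
      r := r
      j := j
      s := s
      ir := hir
      js := hjs
      sum := by
        rw [hri, hsj]
        change e' + (1 - e') = 1
        abel }
    even := ?_
    odd := ?_ }⟩⟩
  · intro x
    have e1 : F.map (show M ⟶ M from e') (F.map i x) = F.map i x := by
      rw [← hri, F.map_comp, ← F.map_comp i, hir, F.map_id]
    rw [h2'] at e1
    have e2 := F.par_map i x
    rw [half_even e1] at e2
    have e3 := congrArg (F.map r) e2
    rw [← F.map_comp, hir, F.map_id, ← F.map_comp, hir, F.map_id] at e3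
    exact e3.symm
  · intro x
    have e1 : F.map (show M ⟶ M from (1 - e' : End M)) (F.map j x) = F.map j x := by
      rw [← hsj, F.map_comp, ← F.map_comp j, hjs, F.map_id]
    have e0 : F.map (show M ⟶ M from (1 - e' : End M)) (F.map j x) =
        F.map j x - F.map (show M ⟶ M from e') (F.map j x) := by
      have := F.map_sub' (𝟙 M) (show M ⟶ M from e') (F.map j x)
      rw [F.map_id] at this
      exact this
    rw [e0, h2'] at e1
    have e2 := F.par_map j x
    rw [half_odd e1] at e2
    have e3 := congrArg (F.map s) e2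
    rw [_root_.map_neg, ← F.map_comp, hjs, F.map_id, ← F.map_comp, hjs, F.map_id] at e3
    exact e3.symm

end Realisation

end

end Pool.Agent.TH90.Kim
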