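import Pool.Agent.TH90.Kim.Main3

/-!
# Tensor factors of Kimura-finite objects, end
-/

open CategoryTheory MonoidalCategory Limits BraidedCategory

universe u v w

namespace Pool.Agent.TH90.Kim

open Pool.Agent.TH90.AB

set_option linter.unusedSectionVars false

noncomputable section

variable {𝒜 : Type u} [Category.{v} 𝒜] [MonoidalCategory 𝒜] [SymmetricCategory 𝒜]
  [Preadditive 𝒜] [MonoidalPreadditive 𝒜] [Linear ℚ 𝒜] [MonoidalLinear ℚ 𝒜]

variable {K : Type w} [Field K] [CharZero K] (F : Realisation 𝒜 K)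

namespace Realisation

lemma two_zero {V : Type*} [AddCommGroup V] [Module K V] {y : V} (h : y = -y) : y = 0 := by
  have h1 : (2 : K) • y = 0 := by
    rw [two_smul]
    nth_rewrite 1 [h]
    simp
  exact (smul_eq_zero.mp h1).resolve_left two_ne_zero

lemma par_tensor {A B : 𝒜} {δ δ' : ℚ} (pA : ∀ x, F.par A x = (δ : K) • x)
    (pB : ∀ x, F.par B x = (δ' : K) • x) (z : F.V (A ⊗ B)) :
    F.par _ z = ((δ * δ' : ℚ) : K) • z := by
  obtain ⟨n, a, b, rfl⟩ := F.exists_sum z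
  rw [map_sum, Finset.smul_sum]
  refine Finset.sum_congr rfl fun i _ => ?_
  rw [F.par_ext, pA, pB, _root_.map_smul, _root_.map_smul, LinearMap.smul_apply, smul_smul,
    Rat.cast_mul, mul_comm (δ' : K)]

variable [hdual : ∀ X : 𝒜, HasRightDual X]
  (hunit : ∀ f : 𝟙_ 𝒜 ⟶ 𝟙_ 𝒜, ∃ q : ℚ, f = q • 𝟙 (𝟙_ 𝒜))

include hunit

/-- A retract of `X = P ⊕ Q` for which the component in `Q` is invisible is a retract of `P`. -/
lemma retract_part {X Y P Q : 𝒜} {N : ℕ}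
    (hN : ∀ l : List (End X), (∀ x ∈ l, x ∈ F.I X) → l.length = N → l.prod = 0)
    (S : Split X P Q) (k : Y ⟶ X) (l : X ⟶ Y) (hkl : k ≫ l = 𝟙 Y) (hinv : F.Inv (k ≫ S.s))
    {ε : ℚ} {n : ℕ} (hP : PowZero ε P n) : PowZero ε Y n := by
  have hd : F.Inv (k ≫ S.s ≫ S.j ≫ l) := by
    rw [← Category.assoc]
    exact F.inv_comp_left _ hinv
  have hnil : IsNilpotent (show End Y from k ≫ S.s ≫ S.j ≫ l) :=
    ⟨N, F.pw_retract hunit hN k l hkl hd⟩
  obtain ⟨u, hu⟩ := hnil.isUnit_one_sub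
  have hsum : (k ≫ S.r ≫ S.i ≫ l) + (k ≫ S.s ≫ S.j ≫ l) = 𝟙 Y := by
    have := congrArg (fun f => k ≫ f ≫ l) S.sum
    simp only [Preadditive.add_comp, Preadditive.comp_add, Category.assoc, Category.id_comp,
      hkl] at this
    exact this
  have hc : (show Y ⟶ Y from (u : End Y)) = k ≫ S.r ≫ S.i ≫ l := by
    rw [eq_sub_of_add_eq hsum]
    exact hu
  have hinv' : (show Y ⟶ Y from (u : End Y)) ≫ (show Y ⟶ Y from (↑u⁻¹ : End Y)) = 𝟙 Y :=
    u.inv_mul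
  refine hP.retract (k ≫ S.r) (S.i ≫ l ≫ (show Y ⟶ Y from (↑u⁻¹ : End Y))) ?_
  rw [hc] at hinv'
  simpa only [Category.assoc] using hinv'

/-- The retracts of a Kimura-finite object of pure parity. -/
lemma powZero_of_parity {X Y : 𝒜} (hX : KimuraFinite X) {δ : ℚ} (hδ : δ = 1 ∨ δ = -1)
    (k : Y ⟶ X) (l : X ⟶ Y) (hkl : k ≫ l = 𝟙 Y) (hY : ∀ y, F.par Y y = (δ : K) • y) :
    ∃ n, PowZero (-δ) Y n := by
  obtain ⟨N, hN⟩ := F.nilp hunit hX
  obtain ⟨P, Q, ⟨S⟩, ⟨n, hP⟩, ⟨m, hQ⟩⟩ := hX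
  have E := F.eo_of_powZero S hP hQ
  rcases hδ with rfl | rfl
  · refine ⟨n, F.retract_part hunit hN S k l hkl (fun y => ?_) hP⟩
    have h1 := par_of_powZero (F := F) (Or.inl rfl) hQ (F.map (k ≫ S.s) y)
    rw [F.par_map, hY, _root_.map_smul] at h1
    apply two_zero (K := K)
    simpa using h1
  · refine ⟨m, ?_⟩
    rw [neg_neg]
    refine F.retract_part hunit hN S.swap k l hkl (fun y => ?_) hQ
    have h1 := par_of_powZero (F := F) (Or.inr rfl) hP (F.map (k ≫ S.r) y)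
    rw [F.par_map, hY, _root_.map_smul] at h1
    apply two_zero (K := K)
    have h2 : -F.map (k ≫ S.r) y = F.map (k ≫ S.r) y := by simpa using h1
    exact h2.symm

/-- Cancellation of a factor of pure parity. -/
lemma part_powZero {M N A B : 𝒜} (hX : KimuraFinite (M ⊗ N)) (iA : A ⟶ M) (rA : M ⟶ A)
    (hA : iA ≫ rA = 𝟙 A) (iB : B ⟶ N) (rB : N ⟶ B) (hB : iB ≫ rB = 𝟙 B) {δ δ' : ℚ}
    (hδ : δ = 1 ∨ δ = -1) (hδ' : δ' = 1 ∨ δ' = -1) (pA : ∀ x, F.par A x = (δ : K) • x)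
    (pB : ∀ x, F.par B x = (δ' : K) • x) (hB0 : ∃ y : F.V B, y ≠ 0) :
    ∃ n, PowZero (-δ) A n := by
  have hδδ : δ * δ' = 1 ∨ δ * δ' = -1 := by
    rcases hδ with rfl | rfl <;> rcases hδ' with rfl | rfl <;> norm_num
  have hδ'' : δ' * δ' = 1 := by rcases hδ' with rfl | rfl <;> norm_num
  obtain ⟨n, hn⟩ := F.powZero_of_parity hunit hX hδδ (iA ⊗ₘ iB) (rA ⊗ₘ rB)
    (by rw [tensorHom_comp_tensorHom, hA, hB, id_tensorHom_id]) (F.par_tensor pA pB)
  refine ⟨n, PowZero.cancel (ε₁ := -δ) (ε₂ := δ') hδ'' ?_ (F.tr_scalar hunit hδ'' pB) ?_⟩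
  · rw [neg_mul]
    exact hn
  · intro k hk h
    have h1 : δ' * ((Module.finrank K (F.V B) : ℚ) + k) = 0 := by rw [mul_add]; exact h
    have h2 : δ' ≠ 0 := by rintro rfl; norm_num at hδ''
    have h3 : ((Module.finrank K (F.V B) : ℚ) + k) = 0 := (mul_eq_zero.mp h1).resolve_left h2
    have h4 : Module.finrank K (F.V B) ≠ 0 := F.finrank_ne hB0
    have h5 : ((Module.finrank K (F.V B) + k : ℕ) : ℚ) = 0 := by push_cast; exact h3
    have h6 : Module.finrank K (F.V B) + k = 0 := by exact_mod_cast h5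
    omega

omit hunit in
/-- The parity of a Kimura-finite object is algebraic. -/
lemma exists_sigma {X : 𝒜} (hX : KimuraFinite X) : ∃ σ : X ⟶ X, ∀ z, F.map σ z = F.par _ z := by
  obtain ⟨P, Q, ⟨S⟩, ⟨n, hP⟩, ⟨m, hQ⟩⟩ := hX
  exact ⟨_, (F.eo_of_powZero S hP hQ).map_sigma⟩

omit hunit in
lemma sigma_swap {M N : 𝒜} {σ : M ⊗ N ⟶ M ⊗ N} (hσ : ∀ z, F.map σ z = F.par _ z)
    (z : F.V (N ⊗ M)) : F.map ((β_ N M).hom ≫ σ ≫ (β_ M N).hom) z = F.par _ z := by
  rw [F.map_comp, F.map_comp, hσ, F.par_map, ← F.map_comp, SymmetricCategory.symmetry, F.map_id]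

/-- The invisible endomorphisms of the first factor are nilpotent. -/
lemma nil_left {M N : 𝒜} (hM : ∃ x : F.V M, x ≠ 0) (hN : ∃ y : F.V N, y ≠ 0)
    (hX : KimuraFinite (M ⊗ N)) {f : M ⟶ M} (hf : F.Inv f) : ∃ n, pw f n = 0 := by
  obtain ⟨n, hn⟩ := F.nilp hunit hX
  obtain ⟨σ, hσ⟩ := F.exists_sigma hX
  have hg := F.map_ptr_par (F.sigma_swap hσ)
  have ht := F.map_tr_par hg
  obtain ⟨q, hq⟩ := hunit (tr (ptr ((β_ N M).hom ≫ σ ≫ (β_ M N).hom)))
  have hq' := F.unit_inj hq ht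
  have hq0 : q ≠ 0 := by
    rintro rfl
    rw [Rat.cast_zero] at hq'
    rcases mul_eq_zero.mp hq'.symm with h | h
    · exact F.finrank_ne hM (by exact_mod_cast h)
    · exact F.finrank_ne hN (by exact_mod_cast h)
  have h1 : pw (f ▷ N) n = 0 := by
    have := hn (List.replicate n (show End (M ⊗ N) from f ▷ N)) (by
      intro x hx
      rw [List.eq_of_mem_replicate hx]
      exact Inv.whiskerRight F hf N) List.length_replicate
    rw [List.prod_replicate] at this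
    exact this
  rw [pw_whiskerRight] at h1
  have h2 := ptr_left (pw f n) (M ◁ ptr ((β_ N M).hom ≫ σ ≫ (β_ M N).hom))
  rw [h1, zero_comp, ptr_zero, ptr_scalar hq, Linear.comp_smul, Category.comp_id] at h2
  exact ⟨n, (smul_eq_zero.mp h2.symm).resolve_left hq0⟩

/-- The first factor has a decomposition in an even and an odd part. -/
lemma eo_left [IsIdempotentComplete 𝒜] {M N : 𝒜} (hM : ∃ x : F.V M, x ≠ 0)
    (hN : ∃ y : F.V N, y ≠ 0) (hX : KimuraFinite (M ⊗ N)) : ∃ P Q, Nonempty (F.EO M P Q) := by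
  obtain ⟨σ, hσ⟩ := F.exists_sigma hX
  have hc : ((Module.finrank K (F.V N) : ℕ) : ℚ) ≠ 0 := by exact_mod_cast F.finrank_ne hN
  refine F.exists_eo (fun f hf => F.nil_left hunit hM hN hX hf) hc (g := ptr σ) (fun x => ?_)
  rw [F.map_ptr_par hσ]
  push_cast
  rfl

/-- **Cancellation**: a tensor factor `M` of a Kimura-finite object `M ⊗ N` is Kimura-finite, if the
realisations of `M` and `N` are non-zero. -/
theorem kimuraFinite_left [IsIdempotentComplete 𝒜] {M N : 𝒜} (hM : ∃ x : F.V M, x ≠ 0)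
    (hN : ∃ y : F.V N, y ≠ 0) (hX : KimuraFinite (M ⊗ N)) : KimuraFinite M := by
  obtain ⟨P, Q, ⟨E⟩⟩ := F.eo_left hunit hM hN hX
  have hX' : KimuraFinite (N ⊗ M) := hX.of_iso (β_ M N)
  obtain ⟨P', Q', ⟨E'⟩⟩ := F.eo_left hunit hN hM hX'
  obtain ⟨B, iB, rB, hB, δ', hδ', pB, hB0⟩ : ∃ (B : 𝒜) (iB : B ⟶ N) (rB : N ⟶ B)
      (_ : iB ≫ rB = 𝟙 B) (δ' : ℚ) (_ : δ' = 1 ∨ δ' = -1)
      (_ : ∀ x, F.par B x = (δ' : K) • x), ∃ y : F.V B, y ≠ 0 := by
    by_cases h0 : ∃ y : F.V P', y ≠ 0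
    · exact ⟨P', E'.S.i, E'.S.r, E'.S.ir, 1, Or.inl rfl, fun x => by rw [E'.even]; simp, h0⟩
    · push Not at h0
      refine ⟨Q', E'.S.j, E'.S.s, E'.S.js, -1, Or.inr rfl, fun x => by rw [E'.odd]; simp, ?_⟩
      by_contra h1
      push Not at h1
      obtain ⟨y, hy⟩ := hN
      apply hy
      have h2 : F.map (E'.S.r ≫ E'.S.i) y + F.map (E'.S.s ≫ E'.S.j) y = y := by
        rw [← F.map_add, E'.S.sum, F.map_id]
      rw [F.map_comp, F.map_comp, h0 (F.map E'.S.r y), h1 (F.map E'.S.s y), _root_.map_zero,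
        _root_.map_zero, add_zero] at h2
      exact h2.symm
  refine ⟨P, Q, ⟨E.S⟩, ?_, ?_⟩
  · exact F.part_powZero hunit hX E.S.i E.S.r E.S.ir iB rB hB (Or.inl rfl) hδ'
      (fun x => by rw [E.even]; simp) pB hB0
  · have := F.part_powZero hunit hX E.S.j E.S.s E.S.js iB rB hB (Or.inr rfl) hδ'
      (fun x => by rw [E.odd]; simp) pB hB0
    rwa [neg_neg] at this

/-- The other factor. -/
theorem kimuraFinite_right [IsIdempotentComplete 𝒜] {M N : 𝒜} (hM : ∃ x : F.V M, x ≠ 0)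
    (hN : ∃ y : F.V N, y ≠ 0) (hX : KimuraFinite (M ⊗ N)) : KimuraFinite N :=
  F.kimuraFinite_left hunit hN hM (hX.of_iso (β_ M N))

omit hunit in
/-- The realisation of the dual of a visible object is non-zero. -/
lemma dual_ne {M : 𝒜} (hM : ∃ x : F.V M, x ≠ 0) : ∃ y : F.V Mᘁ, y ≠ 0 := by
  by_contra h
  push Not at h
  obtain ⟨n, a, b, hab⟩ := F.exists_sum (F.map (η_ M Mᘁ) F.one)
  have h1 := F.contract_par M a b hab
  simp only [h, _root_.map_zero, Finset.sum_const_zero] at h1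
  rcases smul_eq_zero.mp h1.symm with h2 | h2
  · exact F.finrank_ne hM (by exact_mod_cast h2)
  · exact F.one_ne h2

end Realisation

end

end Pool.Agent.TH90.Kim
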