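import Pool.Agent.TH90.AB.Trace
import Pool.Agent.TH90.Kim.Defs

/-!
# Partial traces in symmetric monoidal categories with duals
-/

open CategoryTheory MonoidalCategory Limits BraidedCategory

universe u v

namespace Pool.Agent.TH90.Kim

open Pool.Agent.TH90.AB

set_option linter.unusedSectionVars false

noncomputable section

section swap

variable {𝒜 : Type u} [Category.{v} 𝒜] [MonoidalCategory 𝒜] [SymmetricCategory 𝒜]

@[reassoc]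
lemma sw_sw (X P : 𝒜) : sw X P ≫ sw X P = 𝟙 _ := by
  simp only [sw, Category.assoc, Iso.inv_hom_id_assoc]
  rw [← whiskerLeft_comp_assoc, SymmetricCategory.symmetry]
  simp

@[reassoc]
lemma sw_natural {X Y P : 𝒜} (f : X ⟶ Y) :
    (f ▷ P) ▷ P ≫ sw Y P = sw X P ≫ (f ▷ P) ▷ P := by
  simp only [sw, Category.assoc]
  rw [associator_naturality_left_assoc, ← whisker_exchange_assoc, associator_inv_naturality_left]

@[reassoc]
lemma sw_natural' {X P Q : 𝒜} (g : P ⟶ Q) :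
    (X ◁ g) ▷ P ≫ (X ⊗ Q) ◁ g ≫ sw X Q = sw X P ≫ (X ◁ g) ▷ P ≫ (X ⊗ Q) ◁ g := by
  have h : (X ◁ g) ▷ P ≫ (X ⊗ Q) ◁ g = (α_ X P P).hom ≫ X ◁ (g ⊗ₘ g) ≫ (α_ X Q Q).inv := by
    rw [tensorHom_def]
    simp
  rw [reassoc_of% h]
  simp only [sw, Category.assoc, Iso.inv_hom_id_assoc]
  rw [h, Iso.inv_hom_id_assoc, ← whiskerLeft_comp_assoc, ← whiskerLeft_comp_assoc,
    braiding_naturality]

end swap

variable {𝒜 : Type u} [Category.{v} 𝒜] [MonoidalCategory 𝒜] [SymmetricCategory 𝒜]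
  [hdual : ∀ X : 𝒜, HasRightDual X]

/-- The contraction of the last factor `P`. -/
def ptr {X Y P : 𝒜} (g : X ⊗ P ⟶ Y ⊗ P) : X ⟶ Y :=
  (ρ_ X).inv ≫ X ◁ η_ P Pᘁ ≫ (α_ X P Pᘁ).inv ≫ g ▷ Pᘁ ≫ (α_ Y P Pᘁ).hom ≫ Y ◁ ev P ≫ (ρ_ Y).hom

lemma ptr_left {W X Y P : 𝒜} (u : W ⟶ X) (g : X ⊗ P ⟶ Y ⊗ P) :
    ptr (u ▷ P ≫ g) = u ≫ ptr g := by
  simp only [ptr, comp_whiskerRight, Category.assoc]
  rw [← associator_inv_naturality_left_assoc, whisker_exchange_assoc,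
    rightUnitor_inv_naturality_assoc]

lemma ptr_right {X Y Z P : 𝒜} (g : X ⊗ P ⟶ Y ⊗ P) (v : Y ⟶ Z) :
    ptr (g ≫ v ▷ P) = ptr g ≫ v := by
  simp only [ptr, comp_whiskerRight, Category.assoc]
  rw [associator_naturality_left_assoc, ← whisker_exchange_assoc, rightUnitor_naturality]

lemma ptr_whisker {X P : 𝒜} (g : P ⟶ P) :
    ptr (X ◁ g) = (ρ_ X).inv ≫ X ◁ tr g ≫ (ρ_ X).hom := by
  simp only [ptr, tr_eq, MonoidalCategory.whiskerLeft_comp, Category.assoc]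
  have : (α_ X P Pᘁ).inv ≫ (X ◁ g) ▷ Pᘁ ≫ (α_ X P Pᘁ).hom = X ◁ g ▷ Pᘁ := by
    simp
  rw [reassoc_of% this]

/-- Superposing. -/
lemma ptr_super {X Y Z P : 𝒜} (g : Y ⊗ P ⟶ Z ⊗ P) :
    ptr ((α_ X Y P).hom ≫ X ◁ g ≫ (α_ X Z P).inv) = X ◁ ptr g := by
  simp only [ptr]
  monoidal

/-- Yanking. -/
lemma ptr_braiding (P : 𝒜) : ptr (β_ P P).hom = 𝟙 P := by
  have h1 : (β_ P P).hom ▷ Pᘁ ≫ (α_ P P Pᘁ).hom ≫ P ◁ (β_ P Pᘁ).hom =
      (α_ P P Pᘁ).hom ≫ (β_ P (P ⊗ Pᘁ)).hom ≫ (α_ P Pᘁ P).hom :=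
    (BraidedCategory.hexagon_forward P P Pᘁ).symm
  simp only [ptr, ev, MonoidalCategory.whiskerLeft_comp, Category.assoc]
  rw [reassoc_of% h1, Iso.inv_hom_id_assoc, braiding_naturality_right_assoc,
    ExactPairing.evaluation_coevaluation_assoc, braiding_tensorUnit_right]
  simp

lemma ptr_sw (X P : 𝒜) : ptr (sw X P) = 𝟙 (X ⊗ P) := by
  rw [sw, ptr_super, ptr_braiding, MonoidalCategory.whiskerLeft_id]

/-- Contraction of an endomorphism of the last factor with a transposition. -/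
lemma ptr_whisker_sw {X P : 𝒜} (g : P ⟶ P) : ptr ((X ⊗ P) ◁ g ≫ sw X P) = X ◁ g := by
  have h : (X ⊗ P) ◁ g ≫ sw X P = sw X P ≫ (X ◁ g) ▷ P := by
    have h1 : (X ⊗ P) ◁ g ≫ (α_ X P P).hom = (α_ X P P).hom ≫ X ◁ P ◁ g := by simp
    have h2 : X ◁ g ▷ P ≫ (α_ X P P).inv = (α_ X P P).inv ≫ (X ◁ g) ▷ P := by simp
    simp only [sw, Category.assoc]
    rw [reassoc_of% h1, ← whiskerLeft_comp_assoc, braiding_naturality_right,
      whiskerLeft_comp_assoc, h2]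
  rw [h, ptr_right, ptr_sw, Category.id_comp]

/-- Contraction with a spectator factor. -/
lemma ptr_conj {X Y P Q : 𝒜} (w : X ⊗ P ⟶ Y ⊗ P) :
    ptr (((α_ X Q P).hom ≫ X ◁ (β_ Q P).hom ≫ (α_ X P Q).inv) ≫ w ▷ Q ≫
      (α_ Y P Q).hom ≫ Y ◁ (β_ P Q).hom ≫ (α_ Y Q P).inv) = ptr w ▷ Q := by
  have h1 : ((α_ X Q P).hom ≫ X ◁ (β_ Q P).hom ≫ (α_ X P Q).inv) ≫ (β_ (X ⊗ P) Q).hom =
      (β_ X Q).hom ▷ P ≫ (α_ Q X P).hom := by
    rw [braiding_tensor_left_hom]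
    simp only [Category.assoc, Iso.inv_hom_id_assoc]
    rw [← whiskerLeft_comp_assoc, SymmetricCategory.symmetry]
    simp
  have h2 : (β_ Q (Y ⊗ P)).hom ≫ (α_ Y P Q).hom ≫ Y ◁ (β_ P Q).hom ≫ (α_ Y Q P).inv =
      (α_ Q Y P).inv ≫ (β_ Q Y).hom ▷ P := by
    rw [braiding_tensor_right_hom]
    simp only [Category.assoc, Iso.inv_hom_id_assoc]
    rw [← whiskerLeft_comp_assoc, SymmetricCategory.symmetry]
    simp
  have h3 : w ▷ Q = (β_ (X ⊗ P) Q).hom ≫ Q ◁ w ≫ (β_ Q (Y ⊗ P)).hom := by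
    rw [← braiding_naturality_left_assoc, SymmetricCategory.symmetry, Category.comp_id]
  have hE : ((α_ X Q P).hom ≫ X ◁ (β_ Q P).hom ≫ (α_ X P Q).inv) ≫ w ▷ Q ≫
      (α_ Y P Q).hom ≫ Y ◁ (β_ P Q).hom ≫ (α_ Y Q P).inv =
      (β_ X Q).hom ▷ P ≫ ((α_ Q X P).hom ≫ Q ◁ w ≫ (α_ Q Y P).inv) ≫ (β_ Q Y).hom ▷ P := by
    simp only [Category.assoc] at h1
    rw [h3]
    simp only [Category.assoc]
    rw [h2, reassoc_of% h1]
  rw [hE, ptr_left, ptr_right, ptr_super, ← braiding_naturality_left_assoc,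
    SymmetricCategory.symmetry, Category.comp_id]

lemma ptr_sw_conj {X P : 𝒜} (w : X ⊗ P ⟶ X ⊗ P) :
    ptr (sw X P ≫ w ▷ P ≫ sw X P) = ptr w ▷ P :=
  ptr_conj (Q := P) w

end

end Pool.Agent.TH90.Kim
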