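import Pool.Agent.TH90.Kim.CH
import Mathlib.LinearAlgebra.Trace

/-!
# Realisations in super vector spaces
-/

open CategoryTheory MonoidalCategory Limits BraidedCategory

universe u v w

namespace Pool.Agent.TH90.Kim

open Pool.Agent.TH90.AB

set_option linter.unusedSectionVars false

/-- A realisation of `𝒜`, i.e. a symmetric monoidal `ℚ`-linear functor to the category of
finite-dimensional super vector spaces over `K`: finite-dimensional vector spaces `V X` with parity
`par` (`1` on the even part and `-1` on the odd part), linear maps `map f`, exterior products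
`ext x y` with the consequences of the Künneth formula which are used, a generator `one` of the
vector space of the unit object, the compatibility with the constraints of associativity and unit,
and the Koszul rule for the symmetry. -/
structure Realisation (𝒜 : Type u) [Category.{v} 𝒜] [MonoidalCategory 𝒜] [BraidedCategory 𝒜]
    [Preadditive 𝒜] [Linear ℚ 𝒜] (K : Type w) [Field K] [CharZero K] where
  V : 𝒜 → Type w
  [grp : ∀ X, AddCommGroup (V X)]
  [mod : ∀ X, Module K (V X)]
  [fin : ∀ X, FiniteDimensional K (V X)]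
  map : ∀ {X Y : 𝒜}, (X ⟶ Y) → V X →ₗ[K] V Y
  map_id : ∀ (X : 𝒜) (x : V X), map (𝟙 X) x = x
  map_comp : ∀ {X Y Z : 𝒜} (f : X ⟶ Y) (g : Y ⟶ Z) (x : V X), map (f ≫ g) x = map g (map f x)
  map_add : ∀ {X Y : 𝒜} (f g : X ⟶ Y) (x : V X), map (f + g) x = map f x + map g x
  map_smul : ∀ {X Y : 𝒜} (q : ℚ) (f : X ⟶ Y) (x : V X), map (q • f) x = (q : K) • map f x
  par : ∀ X : 𝒜, V X →ₗ[K] V X
  par_par : ∀ (X : 𝒜) (x : V X), par X (par X x) = x
  par_map : ∀ {X Y : 𝒜} (f : X ⟶ Y) (x : V X), par Y (map f x) = map f (par X x)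
  ext : ∀ {X Y : 𝒜}, V X →ₗ[K] V Y →ₗ[K] V (X ⊗ Y)
  exists_sum : ∀ {X Y : 𝒜} (z : V (X ⊗ Y)), ∃ (n : ℕ) (a : Fin n → V X) (b : Fin n → V Y),
    z = ∑ i, ext (a i) (b i)
  ext_ne_zero : ∀ {X Y : 𝒜} {x : V X} {y : V Y}, x ≠ 0 → y ≠ 0 → ext x y ≠ 0
  ext_map : ∀ {X X' Y Y' : 𝒜} (f : X ⟶ X') (g : Y ⟶ Y') (x : V X) (y : V Y),
    map (f ⊗ₘ g) (ext x y) = ext (map f x) (map g y)
  par_ext : ∀ {X Y : 𝒜} (x : V X) (y : V Y), par (X ⊗ Y) (ext x y) = ext (par X x) (par Y y)
  one : V (𝟙_ 𝒜)
  one_ne : one ≠ 0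
  span_one : ∀ u : V (𝟙_ 𝒜), ∃ c : K, u = c • one
  par_one : par _ one = one
  assoc : ∀ {X Y Z : 𝒜} (x : V X) (y : V Y) (z : V Z),
    map (α_ X Y Z).hom (ext (ext x y) z) = ext x (ext y z)
  left_unit : ∀ {X : 𝒜} (x : V X), map (λ_ X).hom (ext one x) = x
  right_unit : ∀ {X : 𝒜} (x : V X), map (ρ_ X).hom (ext x one) = x
  koszul_even : ∀ {X Y : 𝒜} (x : V X) (y : V Y), par X x = x →
    map (β_ X Y).hom (ext x y) = ext y x
  koszul_odd : ∀ {X Y : 𝒜} (x : V X) (y : V Y), par X x = -x → par Y y = -y →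
    map (β_ X Y).hom (ext x y) = -ext y x

attribute [instance] Realisation.grp Realisation.mod Realisation.fin

noncomputable section

variable {𝒜 : Type u} [Category.{v} 𝒜] [MonoidalCategory 𝒜] [SymmetricCategory 𝒜]
  [Preadditive 𝒜] [MonoidalPreadditive 𝒜] [Linear ℚ 𝒜] [MonoidalLinear ℚ 𝒜]
  {K : Type w} [Field K] [CharZero K] (F : Realisation 𝒜 K)

namespace Realisation

lemma map_zero' {X Y : 𝒜} (x : F.V X) : F.map (0 : X ⟶ Y) x = 0 := by
  have := F.map_smul 0 (0 : X ⟶ Y) x
  rwa [zero_smul, Rat.cast_zero, zero_smul] at this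

lemma map_neg' {X Y : 𝒜} (f : X ⟶ Y) (x : F.V X) : F.map (-f) x = -F.map f x := by
  have := F.map_smul (-1) f x
  rwa [neg_one_smul, Rat.cast_neg, Rat.cast_one, neg_one_smul] at this

lemma map_sub' {X Y : 𝒜} (f g : X ⟶ Y) (x : F.V X) : F.map (f - g) x = F.map f x - F.map g x := by
  rw [sub_eq_add_neg, F.map_add, F.map_neg', sub_eq_add_neg]

lemma whiskerRight {X Y Z : 𝒜} (f : X ⟶ Y) (x : F.V X) (z : F.V Z) :
    F.map (f ▷ Z) (F.ext x z) = F.ext (F.map f x) z := by
  rw [← tensorHom_id, F.ext_map, F.map_id]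

lemma whiskerLeft {X Y Z : 𝒜} (f : X ⟶ Y) (x : F.V X) (z : F.V Z) :
    F.map (Z ◁ f) (F.ext z x) = F.ext z (F.map f x) := by
  rw [← id_tensorHom, F.ext_map, F.map_id]

lemma map_inv {X Y : 𝒜} (e : X ≅ Y) {x : F.V X} {y : F.V Y} (h : F.map e.hom x = y) :
    F.map e.inv y = x := by
  rw [← h, ← F.map_comp, e.hom_inv_id, F.map_id]

lemma map_iso_inj {X Y : 𝒜} (e : X ≅ Y) {x y : F.V X} (h : F.map e.hom x = F.map e.hom y) :
    x = y := by
  rw [← F.map_inv e h, F.map_inv e rfl]

lemma assoc_inv {X Y Z : 𝒜} (x : F.V X) (y : F.V Y) (z : F.V Z) :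
    F.map (α_ X Y Z).inv (F.ext x (F.ext y z)) = F.ext (F.ext x y) z :=
  F.map_inv _ (F.assoc x y z)

/-- A morphism is invisible if its realisation is zero. -/
def Inv {X Y : 𝒜} (f : X ⟶ Y) : Prop := ∀ x, F.map f x = 0

lemma Inv.whiskerRight {X Y : 𝒜} {f : X ⟶ Y} (h : F.Inv f) (Z : 𝒜) : F.Inv (f ▷ Z) := by
  intro z
  obtain ⟨n, a, b, rfl⟩ := F.exists_sum z
  rw [map_sum]
  refine Finset.sum_eq_zero fun i _ => ?_
  rw [F.whiskerRight, h, _root_.map_zero, LinearMap.zero_apply]

section elements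

variable {F}

lemma sy_elt {ε : ℚ} (hε : ε * ε = 1) {P : 𝒜} (n : ℕ) : ∀ {Z : 𝒜} (z : F.V (T P n ⊗ Z)),
    (∀ s, Adj P n s → F.map (s ▷ Z) z = (ε : K) • z) → F.map (sy ε P n ▷ Z) z = z := by
  induction n with
  | zero => intro Z z _; simp [sy, F.map_id]
  | succ n ih =>
    intro Z z hz
    match n with
    | 0 => simp [sy, F.map_id]
    | k + 1 =>
      have e1 : F.map ((sy ε P (k + 1) ▷ P) ▷ Z) z = z := by
        have h1 := ih (F.map (α_ (T P (k + 1)) P Z).hom z) (fun s hs => by
          rw [← F.map_comp, ← associator_naturality_left, F.map_comp,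
            hz _ (Adj.whisker _ s hs), _root_.map_smul])
        rw [← F.map_comp, ← associator_naturality_left, F.map_comp] at h1
        exact F.map_iso_inj _ h1
      have e2 : F.map (sw (T P k) P ▷ Z) z = (ε : K) • z := hz _ (Adj.last k)
      have hk : ((k : ℚ) + 2) ≠ 0 := by positivity
      rw [sy_succ, MonoidalLinear.smul_whiskerRight, MonoidalPreadditive.add_whiskerRight,
        MonoidalLinear.smul_whiskerRight, comp_whiskerRight, comp_whiskerRight, F.map_smul,
        F.map_add, F.map_smul, F.map_comp, F.map_comp, e1, e2, _root_.map_smul, e1, smul_smul]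
      have e3 : z + (((ε * ((k : ℚ) + 1) : ℚ) : K) * (ε : K)) • z = (((k : ℚ) + 2 : ℚ) : K) • z := by
        have : (((ε * ((k : ℚ) + 1) : ℚ) : K) * (ε : K)) = (((k : ℚ) + 1 : ℚ) : K) := by
          rw [← Rat.cast_mul]
          congr 1
          linear_combination ((k : ℚ) + 1) * hε
        rw [this]
        push_cast
        module
      rw [e3, smul_smul, ← Rat.cast_mul, inv_mul_cancel₀ hk, Rat.cast_one, one_smul]

/-- The powers of an element. -/
def vp {P : 𝒜} (v : F.V P) : ∀ n, F.V (T P n)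
  | 0 => F.one
  | n + 1 => F.ext (vp v n) v

lemma vp_ne {P : 𝒜} {v : F.V P} (hv : v ≠ 0) (n : ℕ) : vp v n ≠ 0 := by
  induction n with
  | zero => exact F.one_ne
  | succ n ih => exact F.ext_ne_zero ih hv

lemma vp_adj {ε : ℚ} (hε : ε = 1 ∨ ε = -1) {P : 𝒜} {v : F.V P} (hv : F.par P v = (ε : K) • v)
    (n : ℕ) (s : T P n ⟶ T P n) (hs : Adj P n s) : F.map s (vp v n) = (ε : K) • vp v n := by
  induction hs with
  | last n =>
    have h1 : F.map (β_ P P).hom (F.ext v v) = (ε : K) • F.ext v v := by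
      rcases hε with rfl | rfl
      · rw [Rat.cast_one, one_smul] at *
        exact F.koszul_even v v hv
      · rw [Rat.cast_neg, Rat.cast_one, neg_one_smul] at *
        exact F.koszul_odd v v hv hv
    simp only [vp]
    unfold sw
    rw [F.map_comp, F.map_comp, F.assoc, F.whiskerLeft, h1, _root_.map_smul, _root_.map_smul,
      F.assoc_inv]
  | whisker n s hs ih =>
    simp only [vp]
    rw [F.whiskerRight, ih, _root_.map_smul, LinearMap.smul_apply]

/-- If a power of `P` is zero, then `P` has no part of the corresponding parity. -/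
lemma eq_zero_of_powZero {ε : ℚ} (hε : ε = 1 ∨ ε = -1) {P : 𝒜} {n : ℕ} (hP : PowZero ε P n)
    {v : F.V P} (hv : F.par P v = (ε : K) • v) : v = 0 := by
  by_contra hne
  have hε' : ε * ε = 1 := by rcases hε with rfl | rfl <;> norm_num
  have h1 : F.map (sy ε P n ▷ 𝟙_ 𝒜) (F.ext (vp v n) F.one) = F.ext (vp v n) F.one :=
    sy_elt hε' n _ (fun s hs => by
      rw [F.whiskerRight, vp_adj hε hv n s hs, _root_.map_smul, LinearMap.smul_apply])
  rw [(powZero_iff hε' P n).mp hP, MonoidalPreadditive.zero_whiskerRight, F.map_zero'] at h1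
  exact F.ext_ne_zero (vp_ne hne n) F.one_ne h1.symm

lemma par_of_powZero {ε : ℚ} (hε : ε = 1 ∨ ε = -1) {P : 𝒜} {n : ℕ} (hP : PowZero ε P n)
    (v : F.V P) : F.par P v = (-ε : K) • v := by
  have hε' : ((ε : K)) * (ε : K) = 1 := by
    rw [← Rat.cast_mul]
    have : ε * ε = 1 := by rcases hε with rfl | rfl <;> norm_num
    rw [this, Rat.cast_one]
  have h1 : F.par P (v + (ε : K) • F.par P v) = (ε : K) • (v + (ε : K) • F.par P v) := by
    rw [_root_.map_add, _root_.map_smul, F.par_par, smul_add, smul_smul, hε', one_smul, add_comm]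
  have h2 := eq_zero_of_powZero hε hP h1
  have h3 : (ε : K) • (v + (ε : K) • F.par P v) = 0 := by rw [h2, smul_zero]
  rw [smul_add, smul_smul, hε', one_smul] at h3
  rw [neg_smul]
  exact (neg_eq_of_add_eq_zero_right h3).symm

end elements

section trace

variable [hdual : ∀ X : 𝒜, HasRightDual X]

/-- The evaluation and the coevaluation, and the evaluation after parity. -/
lemma ev_par {N : 𝒜} (a : F.V N) (b : F.V Nᘁ) :
    F.map (ev N) (F.ext (F.par N a) b) = F.map (ε_ N Nᘁ) (F.ext b a) := by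
  have two : ((2 : K)) ≠ 0 := two_ne_zero
  -- homogeneous elements
  have hom : ∀ (a : F.V N) (b : F.V Nᘁ) (s t : Bool), F.par N a = (if s then a else -a) →
      F.par _ b = (if t then b else -b) →
      F.map (ev N) (F.ext (F.par N a) b) = F.map (ε_ N Nᘁ) (F.ext b a) := by
    intro a b s t ha hb
    unfold ev
    rw [F.map_comp]
    cases s with
    | true =>
      simp only [if_true] at ha
      rw [ha, F.koszul_even _ _ ha]
    | false =>
      simp only [Bool.false_eq_true, if_false] at ha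
      cases t with
      | false =>
        simp only [Bool.false_eq_true, if_false] at hb
        rw [ha, _root_.map_neg, LinearMap.neg_apply, _root_.map_neg, F.koszul_odd _ _ ha hb,
          neg_neg]
      | true =>
        simp only [if_true] at hb
        have h1 : F.map (ε_ N Nᘁ) (F.ext b a) = 0 := by
          obtain ⟨c, hc⟩ := F.span_one (F.map (ε_ N Nᘁ) (F.ext b a))
          have h2 : F.par _ (F.map (ε_ N Nᘁ) (F.ext b a)) = F.map (ε_ N Nᘁ) (F.ext b a) := by
            rw [hc, _root_.map_smul, F.par_one]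
          rw [F.par_map, F.par_ext, ha, hb, _root_.map_neg, _root_.map_neg] at h2
          have h3 : (2 : K) • F.map (ε_ N Nᘁ) (F.ext b a) = 0 := by
            rw [two_smul]
            nth_rewrite 1 [← h2]
            simp
          exact (smul_eq_zero.mp h3).resolve_left two
        have h4 : F.map (β_ N Nᘁ).hom (F.ext a b) = F.ext b a := by
          have h5 := F.koszul_even b a hb
          have h6 := F.map_inv (β_ Nᘁ N) h5
          have h7 : (β_ N Nᘁ).hom = (β_ Nᘁ N).inv := by
            rw [← cancel_epi (β_ Nᘁ N).hom]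
            simp
          rw [h7, h6]
        rw [ha, _root_.map_neg, LinearMap.neg_apply, _root_.map_neg, h4, _root_.map_neg, h1,
          neg_zero]
  have dec : ∀ (X : 𝒜) (x : F.V X), x = (2 : K)⁻¹ • (x + F.par X x) + (2 : K)⁻¹ • (x - F.par X x) := by
    intro X x
    rw [← smul_add]
    have : x + F.par X x + (x - F.par X x) = (2 : K) • x := by rw [two_smul]; abel
    rw [this, smul_smul, inv_mul_cancel₀ two, one_smul]
  have pe : ∀ (X : 𝒜) (x : F.V X), F.par X ((2 : K)⁻¹ • (x + F.par X x)) =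
      (2 : K)⁻¹ • (x + F.par X x) := by
    intro X x
    rw [_root_.map_smul, _root_.map_add, F.par_par, add_comm]
  have po : ∀ (X : 𝒜) (x : F.V X), F.par X ((2 : K)⁻¹ • (x - F.par X x)) =
      -((2 : K)⁻¹ • (x - F.par X x)) := by
    intro X x
    rw [_root_.map_smul, _root_.map_sub, F.par_par, ← smul_neg, neg_sub]
  rw [dec N a, dec _ b]
  generalize hae : (2 : K)⁻¹ • (a + F.par N a) = ae
  generalize hao : (2 : K)⁻¹ • (a - F.par N a) = ao
  generalize hbe : (2 : K)⁻¹ • (b + F.par _ b) = be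
  generalize hbo : (2 : K)⁻¹ • (b - F.par _ b) = bo
  have pae : F.par N ae = ae := by rw [← hae]; exact pe N a
  have pao : F.par N ao = -ao := by rw [← hao]; exact po N a
  have pbe : F.par _ be = be := by rw [← hbe]; exact pe _ b
  have pbo : F.par _ bo = -bo := by rw [← hbo]; exact po _ b
  have h1 := hom ae be true true (by simpa using pae) (by simpa using pbe)
  have h2 := hom ae bo true false (by simpa using pae) (by simpa using pbo)
  have h3 := hom ao be false true (by simpa using pao) (by simpa using pbe)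
  have h4 := hom ao bo false false (by simpa using pao) (by simpa using pbo)
  simp only [_root_.map_add, LinearMap.add_apply, h1, h2, h3, h4]
  abel

/-- The contraction of parity is the dimension. -/
lemma contract_par (N : 𝒜) {n : ℕ} (a : Fin n → F.V N) (b : Fin n → F.V Nᘁ)
    (h : F.map (η_ N Nᘁ) F.one = ∑ i, F.ext (a i) (b i)) :
    ∑ i, F.map (ev N) (F.ext (F.par N (a i)) (b i)) = (Module.finrank K (F.V N) : K) • F.one := by
  have hc : ∀ (i : Fin n) (v : F.V N), ∃ c : K, F.map (ε_ N Nᘁ) (F.ext (b i) v) = c • F.one :=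
    fun i v => F.span_one _
  choose c hc using hc
  have inj : ∀ x y : K, x • F.one = y • F.one → x = y := fun x y hxy =>
    smul_left_injective K F.one_ne hxy
  let φ : Fin n → Module.Dual K (F.V N) := fun i =>
    { toFun := c i
      map_add' := by
        intro x y
        apply inj
        rw [← hc, add_smul, ← hc, ← hc, _root_.map_add, _root_.map_add]
      map_smul' := by
        intro r x
        apply inj
        rw [← hc, _root_.map_smul, _root_.map_smul, hc, smul_smul]
        rfl }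
  have hz : ∀ v : F.V N, ∑ i, φ i v • a i = v := by
    intro v
    have e1 := ExactPairing.evaluation_coevaluation N Nᘁ
    have e2 := congrArg (fun f => F.map f (F.ext F.one v)) e1
    simp only [F.map_comp, F.whiskerRight, F.left_unit] at e2
    rw [h, map_sum, LinearMap.sum_apply, map_sum, map_sum] at e2
    simp only [F.assoc, F.whiskerLeft, hc, _root_.map_smul] at e2
    have e3 := congrArg (F.map (ρ_ N).hom) e2
    rw [map_sum] at e3
    simp only [_root_.map_smul, F.right_unit] at e3
    rw [← F.map_comp, Iso.inv_hom_id, F.map_id] at e3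
    exact e3
  have hid : (LinearMap.id : F.V N →ₗ[K] F.V N) = ∑ i, dualTensorHom K _ _ (φ i ⊗ₜ a i) := by
    refine LinearMap.ext fun v => ?_
    rw [LinearMap.sum_apply]
    simp only [dualTensorHom_apply, LinearMap.id_apply]
    exact (hz v).symm
  have ht : (Module.finrank K (F.V N) : K) = ∑ i, φ i (a i) := by
    rw [← LinearMap.trace_id K (F.V N), hid, map_sum]
    refine Finset.sum_congr rfl fun i _ => ?_
    rw [LinearMap.trace_eq_contract_apply]
    simp
  rw [ht, Finset.sum_smul]
  refine Finset.sum_congr rfl fun i _ => ?_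
  rw [F.ev_par, hc]
  rfl

end trace

end Realisation

end

end Pool.Agent.TH90.Kim
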