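import Pool.Agent.TH90.Kim.PT
import Pool.Agent.TH90.Kim.Alg

/-!
# Tensor powers, transpositions and (anti)symmetrisers
-/

open CategoryTheory MonoidalCategory Limits BraidedCategory

universe u v

namespace Pool.Agent.TH90.Kim

open Pool.Agent.TH90.AB

set_option linter.unusedSectionVars false

noncomputable section

variable {𝒜 : Type u} [Category.{v} 𝒜] [MonoidalCategory 𝒜] [SymmetricCategory 𝒜]

/-- The tensor powers of a morphism. -/
def Tm {P Q : 𝒜} (f : P ⟶ Q) : ∀ n, T P n ⟶ T Q n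
  | 0 => 𝟙 _
  | n + 1 => Tm f n ⊗ₘ f

/-- Braid relation. -/
lemma braid (X P : 𝒜) : sw X P ▷ P ≫ sw (X ⊗ P) P ≫ sw X P ▷ P =
    sw (X ⊗ P) P ≫ sw X P ▷ P ≫ sw (X ⊗ P) P := by
  calc sw X P ▷ P ≫ sw (X ⊗ P) P ≫ sw X P ▷ P = 𝟙 _ ⊗≫ X ◁ ((β_ P P).hom ▷ P ⊗≫
      P ◁ (β_ P P).hom ⊗≫ (β_ P P).hom ▷ P) ⊗≫ 𝟙 _ := by
        simp only [sw]
        monoidal
    _ = _ := by
        rw [yang_baxter']
        simp only [sw]
        monoidal

section linear

variable [Preadditive 𝒜] [MonoidalPreadditive 𝒜] [Linear ℚ 𝒜] [MonoidalLinear ℚ 𝒜]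

/-- The (anti)symmetrisers. -/
def sy (ε : ℚ) (P : 𝒜) : ∀ n, T P n ⟶ T P n
  | 0 => 𝟙 _
  | 1 => 𝟙 _
  | n + 2 => ((n : ℚ) + 2)⁻¹ • (sy ε P (n + 1) ▷ P + (ε * (n + 1)) •
      (sy ε P (n + 1) ▷ P ≫ sw (T P n) P ≫ sy ε P (n + 1) ▷ P))

/-- The properties of the (anti)symmetriser. -/
structure IsSy (ε : ℚ) (P : 𝒜) (n : ℕ) : Prop where
  left : ∀ s, Adj P n s → s ≫ sy ε P n = ε • sy ε P n
  right : ∀ s, Adj P n s → sy ε P n ≫ s = ε • sy ε P n
  idem : sy ε P n ≫ sy ε P n = sy ε P n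

lemma isSy_zero (ε : ℚ) (P : 𝒜) : IsSy ε P 0 where
  left := by intro s hs; cases hs
  right := by intro s hs; cases hs
  idem := by simp [sy]

lemma isSy_one (ε : ℚ) (P : 𝒜) : IsSy ε P 1 where
  left := by
    intro s hs
    cases hs with
    | whisker s hs' hs => cases hs
  right := by
    intro s hs
    cases hs with
    | whisker s hs' hs => cases hs
  idem := by simp [sy]

lemma sy_succ (ε : ℚ) (P : 𝒜) (n : ℕ) : sy ε P (n + 2) = ((n : ℚ) + 2)⁻¹ •
    (sy ε P (n + 1) ▷ P + (ε * (n + 1)) •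
      (sy ε P (n + 1) ▷ P ≫ sw (T P n) P ≫ sy ε P (n + 1) ▷ P)) := rfl

lemma absorb_left {ε : ℚ} {P : 𝒜} {n : ℕ} (h : sy ε P (n + 1) ≫ sy ε P (n + 1) = sy ε P (n + 1)) :
    sy ε P (n + 1) ▷ P ≫ sy ε P (n + 2) = sy ε P (n + 2) := by
  have h' : sy ε P (n + 1) ▷ P ≫ sy ε P (n + 1) ▷ P = sy ε P (n + 1) ▷ P := by
    rw [← comp_whiskerRight, h]
  rw [sy_succ, Linear.comp_smul, Preadditive.comp_add, Linear.comp_smul, h', reassoc_of% h']

lemma absorb_right {ε : ℚ} {P : 𝒜} {n : ℕ} (h : sy ε P (n + 1) ≫ sy ε P (n + 1) = sy ε P (n + 1)) :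
    sy ε P (n + 2) ≫ sy ε P (n + 1) ▷ P = sy ε P (n + 2) := by
  have h' : sy ε P (n + 1) ▷ P ≫ sy ε P (n + 1) ▷ P = sy ε P (n + 1) ▷ P := by
    rw [← comp_whiskerRight, h]
  rw [sy_succ, Linear.smul_comp, Preadditive.add_comp, Linear.smul_comp, h', Category.assoc,
    Category.assoc, h']

/-- the factor in the recursion -/
lemma sy_mul (ε : ℚ) (P : 𝒜) (n : ℕ) : ((n : ℚ) + 2) • sy ε P (n + 2) =
    sy ε P (n + 1) ▷ P + (ε * (n + 1)) •
      (sy ε P (n + 1) ▷ P ≫ sw (T P n) P ≫ sy ε P (n + 1) ▷ P) := by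
  have : ((n : ℚ) + 2) ≠ 0 := by positivity
  rw [sy_succ, smul_smul, mul_inv_cancel₀ this, one_smul]

lemma step {ε : ℚ} (hε : ε * ε = 1) {P : 𝒜} {k : ℕ} (h1 : IsSy ε P (k + 1))
    (h2 : IsSy ε P (k + 2)) :
    Step (R := End (T P (k + 3))) ((sy ε P (k + 1) ▷ P) ▷ P) (sy ε P (k + 2) ▷ P)
      (sw (T P k) P ▷ P) (sw (T P (k + 1)) P) ε ((k : ℚ) + 2) where
  hε := hε
  tt := sw_sw _ _
  ta := sw_natural _
  sts := braid _ _
  ae := by
    change sy ε P (k + 2) ▷ P ≫ (sy ε P (k + 1) ▷ P) ▷ P = _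
    rw [← comp_whiskerRight, absorb_right h1.idem]
  ea := by
    change (sy ε P (k + 1) ▷ P) ▷ P ≫ sy ε P (k + 2) ▷ P = _
    rw [← comp_whiskerRight, absorb_left h1.idem]
  se := by
    change sy ε P (k + 2) ▷ P ≫ sw (T P k) P ▷ P = _
    rw [← comp_whiskerRight, h2.right _ (Adj.last k), MonoidalLinear.smul_whiskerRight]
  es := by
    change sw (T P k) P ▷ P ≫ sy ε P (k + 2) ▷ P = _
    rw [← comp_whiskerRight, h2.left _ (Adj.last k), MonoidalLinear.smul_whiskerRight]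
  ee := by
    change sy ε P (k + 2) ▷ P ≫ sy ε P (k + 2) ▷ P = _
    rw [← comp_whiskerRight, h2.idem]
  me := by
    change ((k : ℚ) + 2) • (sy ε P (k + 2) ▷ P) = (sy ε P (k + 1) ▷ P) ▷ P +
      (ε * ((k : ℚ) + 2 - 1)) • ((sy ε P (k + 1) ▷ P) ▷ P ≫ sw (T P k) P ▷ P ≫
        (sy ε P (k + 1) ▷ P) ▷ P)
    rw [← MonoidalLinear.smul_whiskerRight, sy_mul, MonoidalPreadditive.add_whiskerRight,
      MonoidalLinear.smul_whiskerRight, comp_whiskerRight, comp_whiskerRight]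
    congr 2
    ring

lemma isSy_two {ε : ℚ} (hε : ε * ε = 1) (P : 𝒜) : IsSy ε P 2 := by
  have h : sy ε P 2 = (2 : ℚ)⁻¹ • (𝟙 _ + ε • sw (T P 0) P) := by
    rw [sy_succ]
    simp [sy]
  have e0 : ε • (𝟙 _ + ε • sw (T P 0) P) = sw (T P 0) P + ε • 𝟙 _ := by
    rw [smul_add, smul_smul, hε, one_smul, add_comm]
  have e1 : sw (T P 0) P ≫ sy ε P 2 = ε • sy ε P 2 := by
    rw [h, Linear.comp_smul, Preadditive.comp_add, Linear.comp_smul, sw_sw, Category.comp_id,
      smul_comm ε, e0]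
  have e2 : sy ε P 2 ≫ sw (T P 0) P = ε • sy ε P 2 := by
    rw [h, Linear.smul_comp, Preadditive.add_comp, Linear.smul_comp, sw_sw, Category.id_comp,
      smul_comm ε, e0]
  refine ⟨?_, ?_, ?_⟩
  · intro s hs
    cases hs with
    | last n => exact e1
    | whisker s hs' hs =>
      cases hs with
      | whisker s hs' hs => cases hs
  · intro s hs
    cases hs with
    | last n => exact e2
    | whisker s hs' hs =>
      cases hs with
      | whisker s hs' hs => cases hs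
  · nth_rewrite 2 [h]
    rw [Linear.comp_smul, Preadditive.comp_add, Linear.comp_smul, e2, Category.comp_id, smul_smul,
      hε, one_smul, ← two_smul ℚ, smul_smul]
    norm_num

lemma isSy_step {ε : ℚ} (hε : ε * ε = 1) {P : 𝒜} {k : ℕ} (h1 : IsSy ε P (k + 1))
    (h2 : IsSy ε P (k + 2)) : IsSy ε P (k + 3) := by
  have h := step hε h1 h2
  have hk : ((k : ℚ) + 3) ≠ 0 := by positivity
  let E : End (T P (k + 3)) := sy ε P (k + 2) ▷ P + (ε * ((k : ℚ) + 2)) •
      (sy ε P (k + 2) ▷ P ≫ sw (T P (k + 1)) P ≫ sy ε P (k + 2) ▷ P)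
  have hE : sy ε P (k + 3) = ((k : ℚ) + 3)⁻¹ • E := by
    rw [show sy ε P (k + 3) = _ from sy_succ ε P (k + 1)]
    push_cast
    congr 1
    · ring
    · change _ + _ = _ + _
      congr 2
      ring
  have l := h.left
  have r := h.right
  have i := h.idem
  have l' : E ≫ sw (T P (k + 1)) P = ε • E := l
  have r' : sw (T P (k + 1)) P ≫ E = ε • E := r
  have i' : E ≫ E = ((k : ℚ) + 2 + 1) • E := i
  refine ⟨?_, ?_, ?_⟩
  · intro s hs
    cases hs with
    | last n =>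
      rw [hE, Linear.comp_smul, r', smul_comm]
    | whisker n s hs =>
      have e1 : s ▷ P ≫ sy ε P (k + 2) ▷ P = ε • (sy ε P (k + 2) ▷ P) := by
        rw [← comp_whiskerRight, h2.left s hs, MonoidalLinear.smul_whiskerRight]
      rw [hE, Linear.comp_smul, smul_comm ε]
      congr 1
      change s ▷ P ≫ (_ + _) = ε • (_ + _)
      rw [Preadditive.comp_add, Linear.comp_smul, e1, ← Category.assoc (s ▷ P), e1,
        Linear.smul_comp, smul_add, smul_comm ε]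
  · intro s hs
    cases hs with
    | last n =>
      rw [hE, Linear.smul_comp, l', smul_comm]
    | whisker n s hs =>
      have e1 : sy ε P (k + 2) ▷ P ≫ s ▷ P = ε • (sy ε P (k + 2) ▷ P) := by
        rw [← comp_whiskerRight, h2.right s hs, MonoidalLinear.smul_whiskerRight]
      rw [hE, Linear.smul_comp, smul_comm ε]
      congr 1
      change (_ + _) ≫ s ▷ P = ε • (_ + _)
      rw [Preadditive.add_comp, Linear.smul_comp, e1, Category.assoc, Category.assoc, e1,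
        Linear.comp_smul, Linear.comp_smul, smul_add, smul_comm ε]
  · rw [hE, Linear.comp_smul, Linear.smul_comp, i', smul_smul, smul_smul]
    congr 1
    field_simp
    ring

lemma isSy {ε : ℚ} (hε : ε * ε = 1) (P : 𝒜) (n : ℕ) : IsSy ε P n := by
  induction n using Nat.strong_induction_on with
  | _ n ih =>
    match n with
    | 0 => exact isSy_zero ε P
    | 1 => exact isSy_one ε P
    | 2 => exact isSy_two hε P
    | k + 3 => exact isSy_step hε (ih (k + 1) (by omega)) (ih (k + 2) (by omega))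

lemma sy_comp_aux {ε : ℚ} (hε : ε * ε = 1) {P : 𝒜} (n : ℕ) :
    ∀ {Y Z : 𝒜} (g : T P n ⊗ Z ⟶ Y), (∀ s, Adj P n s → s ▷ Z ≫ g = ε • g) →
      sy ε P n ▷ Z ≫ g = g := by
  induction n with
  | zero => intro Y Z g _; simp [sy]
  | succ n ih =>
    intro Y Z g hg
    match n with
    | 0 => simp [sy]
    | k + 1 =>
      have e1 : (sy ε P (k + 1) ▷ P) ▷ Z ≫ g = g := by
        have h1 := ih ((α_ (T P (k + 1)) P Z).inv ≫ g) (fun s hs => by
          rw [associator_inv_naturality_left_assoc, hg _ (Adj.whisker _ s hs),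
            Linear.comp_smul])
        rw [associator_inv_naturality_left_assoc] at h1
        exact (cancel_epi (α_ (T P (k + 1)) P Z).inv).mp h1
      have e2 : sw (T P k) P ▷ Z ≫ g = ε • g := hg _ (Adj.last k)
      have hk : ((k : ℚ) + 2) ≠ 0 := by positivity
      rw [sy_succ, MonoidalLinear.smul_whiskerRight, MonoidalPreadditive.add_whiskerRight,
        MonoidalLinear.smul_whiskerRight, comp_whiskerRight, comp_whiskerRight, Linear.smul_comp,
        Preadditive.add_comp, Linear.smul_comp, Category.assoc, Category.assoc, e1, e2,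
        Linear.comp_smul, e1, smul_smul]
      have e3 : g + (ε * ((k : ℚ) + 1) * ε) • g = ((k : ℚ) + 2) • g := by
        have : ε * ((k : ℚ) + 1) * ε = (k : ℚ) + 1 := by linear_combination ((k : ℚ) + 1) * hε
        rw [this]
        module
      rw [e3, smul_smul, inv_mul_cancel₀ hk, one_smul]

/-- Signed morphisms factor through the (anti)symmetriser. -/
lemma sy_comp {ε : ℚ} (hε : ε * ε = 1) {P Y : 𝒜} {n : ℕ} {g : T P n ⟶ Y} (hg : Signed ε g) :
    sy ε P n ≫ g = g := by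
  have h := sy_comp_aux hε n ((ρ_ (T P n)).hom ≫ g) (fun s hs => by
    rw [rightUnitor_naturality_assoc, hg s hs, Linear.comp_smul])
  rw [rightUnitor_naturality_assoc] at h
  exact (cancel_epi (ρ_ (T P n)).hom).mp h

lemma signed_sy {ε : ℚ} (hε : ε * ε = 1) (P : 𝒜) (n : ℕ) : Signed ε (sy ε P n) :=
  (isSy hε P n).left

lemma powZero_iff {ε : ℚ} (hε : ε * ε = 1) (P : 𝒜) (n : ℕ) : PowZero ε P n ↔ sy ε P n = 0 := by
  constructor
  · intro h
    exact h _ _ (signed_sy hε P n)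
  · intro h Y g hg
    rw [← sy_comp hε hg, h, zero_comp]

lemma Tm_adj {P Q : 𝒜} (r : P ⟶ Q) (n : ℕ) (s : T P n ⟶ T P n) (hs : Adj P n s) :
    ∃ s' : T Q n ⟶ T Q n, Adj Q n s' ∧ s ≫ Tm r n = Tm r n ≫ s' := by
  induction hs with
  | last n =>
    refine ⟨_, Adj.last n, ?_⟩
    have e1 : Tm r (n + 2) = ((Tm r n ▷ P) ▷ P) ≫ (T Q n ◁ r) ▷ P ≫ (T Q n ⊗ Q) ◁ r := by
      simp only [Tm, MonoidalCategory.tensorHom_def, comp_whiskerRight, Category.assoc]
    rw [e1, Category.assoc, Category.assoc, sw_natural', sw_natural_assoc]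
  | whisker n s hs ih =>
    obtain ⟨s', h1, h2⟩ := ih
    refine ⟨_, Adj.whisker _ s' h1, ?_⟩
    simp only [Tm, MonoidalCategory.tensorHom_def, Category.assoc]
    rw [← comp_whiskerRight_assoc, h2, comp_whiskerRight_assoc, whisker_exchange]

lemma Tm_comp {P Q R : 𝒜} (f : P ⟶ Q) (g : Q ⟶ R) (n : ℕ) : Tm f n ≫ Tm g n = Tm (f ≫ g) n := by
  induction n with
  | zero => simp [Tm]
  | succ n ih => simp [Tm, ih]

lemma Tm_id (P : 𝒜) (n : ℕ) : Tm (𝟙 P) n = 𝟙 _ := by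
  induction n with
  | zero => simp [Tm]
  | succ n ih => simp [Tm, ih]

/-- Powers of retracts. -/
lemma PowZero.retract {ε : ℚ} {P Q : 𝒜} {n : ℕ} (h : PowZero ε P n) (i : Q ⟶ P) (r : P ⟶ Q)
    (hir : i ≫ r = 𝟙 Q) : PowZero ε Q n := by
  intro Y g hg
  have h1 : Tm r n ≫ g = 0 := h _ _ (fun s hs => by
    obtain ⟨s', hs', e⟩ := Tm_adj r n s hs
    rw [reassoc_of% e, hg s' hs', Linear.comp_smul])
  have h2 : Tm i n ≫ Tm r n = 𝟙 _ := by rw [Tm_comp, hir, Tm_id]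
  rw [← Category.id_comp g, ← h2, Category.assoc, h1, comp_zero]

section trace

variable [hdual : ∀ X : 𝒜, HasRightDual X]

lemma ptr_add {X Y P : 𝒜} (f g : X ⊗ P ⟶ Y ⊗ P) : ptr (f + g) = ptr f + ptr g := by
  simp only [ptr, MonoidalPreadditive.add_whiskerRight, Preadditive.add_comp,
    Preadditive.comp_add]

lemma ptr_smul {X Y P : 𝒜} (c : ℚ) (f : X ⊗ P ⟶ Y ⊗ P) : ptr (c • f) = c • ptr f := by
  simp only [ptr, MonoidalLinear.smul_whiskerRight, Linear.smul_comp, Linear.comp_smul]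

lemma ptr_zero {X Y P : 𝒜} : ptr (0 : X ⊗ P ⟶ Y ⊗ P) = 0 := by
  simp only [ptr, MonoidalPreadditive.zero_whiskerRight, zero_comp, comp_zero]

lemma ptr_scalar {X P : 𝒜} {g : P ⟶ P} {c : ℚ} (h : tr g = c • 𝟙 (𝟙_ 𝒜)) :
    ptr (X ◁ g) = c • 𝟙 X := by
  rw [ptr_whisker, h, MonoidalLinear.whiskerLeft_smul, Linear.smul_comp, Linear.comp_smul]
  simp

lemma ptr_sy {ε χ : ℚ} (hε : ε * ε = 1) {P : 𝒜} (h : tr (𝟙 P) = χ • 𝟙 (𝟙_ 𝒜)) (n : ℕ) :
    ptr (sy ε P (n + 1)) = ((χ + ε * n) / (n + 1)) • sy ε P n := by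
  match n with
  | 0 =>
    have e1 : sy ε P (0 + 1) = 𝟙_ 𝒜 ◁ 𝟙 P := by simp [sy]
    rw [e1, ptr_scalar h]
    simp [sy]
  | k + 1 =>
    have e1 : ptr (sy ε P (k + 1) ▷ P) = χ • sy ε P (k + 1) := by
      have : sy ε P (k + 1) ▷ P = sy ε P (k + 1) ▷ P ≫ T P (k + 1) ◁ 𝟙 P := by simp
      rw [this, ptr_left, ptr_scalar h, Linear.comp_smul, Category.comp_id]
    have e2 : ptr (sy ε P (k + 1) ▷ P ≫ sw (T P k) P ≫ sy ε P (k + 1) ▷ P) =
        sy ε P (k + 1) := by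
      rw [ptr_left, ptr_right, ptr_sw, Category.id_comp, (isSy hε P (k + 1)).idem]
    rw [sy_succ, ptr_smul, ptr_add, ptr_smul, e1, e2]
    push_cast
    rw [← add_smul, smul_smul]
    congr 1
    field_simp
    ring

end trace

end linear

end

end Pool.Agent.TH90.Kim
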